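import Mathlib

/-!
# The forcing language, and the negated form of Q1 as a sentence of it

`P` is a forcing notion: a preordered set of conditions, where `q ≤ p` means that `q` is stronger
than `p`. A sentence about the extension is given by the set of the conditions which force it. A
name of a subset of a ground model set `T` is a function from `T` to sets of conditions.
-/

set_option autoImplicit false

namespace Pool.Agent.Helper835.PXD

section

universe v w

variable {P : Type} [Preorder P]

/-- `p` forces `not φ` iff no `q ≤ p` forces `φ`. -/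
def fnot (φ : Set P) : Set P := {p | ∀ q ≤ p, q ∉ φ}

/-- `p` forces `φ and ψ` iff it forces both. -/
def fand (φ ψ : Set P) : Set P := {p | p ∈ φ ∧ p ∈ ψ}

/-- `p` forces `for all i, φ i` iff it forces every `φ i`. -/
def fall {ι : Sort v} (φ : ι → Set P) : Set P := {p | ∀ i, p ∈ φ i}

/-- `φ implies ψ` is `not (φ and not ψ)`. -/
def fimp (φ ψ : Set P) : Set P := fnot (fand φ (fnot ψ))

/-- `there is i with φ i` is `not for all i, not φ i`. -/
def fex {ι : Sort v} (φ : ι → Set P) : Set P := fnot (fall fun i => fnot (φ i))

/-- A statement about ground model objects. -/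
def fground (h : Prop) : Set P := {_p | h}

/-- `p` forces that the generic filter meets the set `N` of conditions:
the set of `r` lying below some member of `N` is dense below `p`. -/
def meets (N : Set P) : Set P := {p | ∀ q ≤ p, ∃ r ≤ q, ∃ s ∈ N, r ≤ s}

/-- The relation named by `R` is a function from `X` to `Y`. -/
def IsFun {X : Type v} {Y : Type w} (R : X → Y → Set P) : Set P :=
  fand (fall fun x => fex fun y => meets (R x y))
    (fall fun x => fall fun y => fall fun y' =>
      fimp (fand (meets (R x y)) (meets (R x y'))) (fground (y = y')))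

/-- A name of a real number `x`: `z v c` is the name of the statement `⌊2 ^ v * x⌋ = c`. -/
abbrev RName (P : Type) : Type := ℕ → ℤ → Set P

/-- `z` names a real number `x`, given by the integers `z v = ⌊2 ^ v * x⌋`: these are exactly
the functions `z : ℕ → ℤ` with `z (v + 1) ∈ {2 * z v, 2 * z v + 1}` for all `v`, and
`z (v + 1) = 2 * z v` for infinitely many `v`. -/
def IsReal (z : RName P) : Set P :=
  fand (IsFun z)
    (fand
      (fall fun v => fall fun c => fall fun c' =>
        fimp (fand (meets (z v c)) (meets (z (v + 1) c'))) (fground (c' = 2 * c ∨ c' = 2 * c + 1)))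
      (fall fun v => fex fun n => fex fun c =>
        fand (fground (v ≤ n)) (fand (meets (z n c)) (meets (z (n + 1) (2 * c))))))

/-- The real number named by `x` is in the open interval with rational end points `I`. -/
def InI (x : RName P) (I : ℚ × ℚ) : Set P :=
  fex fun v => fex fun c =>
    fand (meets (x v c)) (fground (I.1 < (c : ℚ) / 2 ^ v ∧ ((c : ℚ) + 1) / 2 ^ v ≤ I.2))

/-- the `s`-th power of the length of an interval -/
noncomputable def wt (s : ℝ) (I : ℚ × ℚ) : ℝ := (max (((I.2 - I.1 : ℚ) : ℝ)) 0) ^ s

/-- the `s`-th power of the sum of the side lengths of a rectangle -/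
noncomputable def wt2 (s : ℝ) (B : (ℚ × ℚ) × (ℚ × ℚ)) : ℝ :=
  (max (((B.1.2 - B.1.1 : ℚ) : ℝ)) 0 + max (((B.2.2 - B.2.1 : ℚ) : ℝ)) 0) ^ s

/-- The sum of the numbers `W (J i)`, `i ∈ ℕ`, is at most `ε`. -/
def SumLE {B : Type} (W : B → ℝ) (J : ℕ → B → Set P) (ε : ℝ) : Set P :=
  fall fun F : Finset ℕ => fall fun b : ℕ → B =>
    fimp (fall fun i => fall fun _ : i ∈ F => meets (J i (b i))) (fground (∑ i ∈ F, W (b i) ≤ ε))

/-- The Hausdorff dimension of `Y = {Y e : e ∈ E}` is `0`: for all `s > 0` and `ε > 0` the set
is covered by a sequence of intervals such that the sum of the `s`-th powers of the lengths is at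
most `ε`. -/
def DimZero {E : Type} (Y : E → RName P) : Set P :=
  fall fun s : ℚ => fall fun _ : 0 < s => fall fun ε : ℚ => fall fun _ : 0 < ε =>
    fex fun J : ℕ → ℚ × ℚ → Set P =>
      fand (fand (IsFun J) (SumLE (wt s) J ε))
        (fall fun e => fex fun i => fex fun I => fand (meets (J i I)) (InI (Y e) I))

/-- The Hausdorff dimension of the product `X × Y` is `0`: for all `s > 0` and `ε > 0` the set
is covered by a sequence of rectangles such that the sum of the `s`-th powers of the sums of the
side lengths is at most `ε`. -/
def DimZeroProd {E E' : Type} (X : E → RName P) (Y : E' → RName P) : Set P :=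
  fall fun s : ℚ => fall fun _ : 0 < s => fall fun ε : ℚ => fall fun _ : 0 < ε =>
    fex fun J : ℕ → (ℚ × ℚ) × (ℚ × ℚ) → Set P =>
      fand (fand (IsFun J) (SumLE (wt2 s) J ε))
        (fall fun e => fall fun e' => fex fun i => fex fun B =>
          fand (meets (J i B)) (fand (InI (X e) B.1) (InI (Y e') B.2)))

/-- For the family `A e`, `e ∈ E`, of subsets of `ℕ` (`A e n` is a name of the statement
`n ∈ A e`): the intersection of finitely many members of the family is infinite. -/
def SFIP {E : Type} (A : E → ℕ → Set P) : Set P :=
  fall fun H : Finset E => fall fun m : ℕ => fex fun n : ℕ =>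
    fand (fground (m ≤ n)) (fall fun e => fall fun _ : e ∈ H => meets (A e n))

/-- The set `G ⊆ ℕ` is infinite, and `G \ A e` is finite for all `e ∈ E`. -/
def PseudoInt {E : Type} (A : E → ℕ → Set P) (G : ℕ → Set P) : Set P :=
  fand (fall fun m : ℕ => fex fun n : ℕ => fand (fground (m ≤ n)) (meets (G n)))
    (fall fun e => fex fun m : ℕ => fall fun n : ℕ =>
      fimp (fand (fground (m ≤ n)) (meets (G n))) (meets (A e n)))

variable (P)

/-- `|E| < 𝔭`: each family of subsets of `ℕ` with index set `E` such that the intersections of
finitely many members are infinite has an infinite pseudo-intersection. -/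
def BelowP (E : Type) : Set P :=
  fall fun A : E → ℕ → Set P => fimp (SFIP A) (fex fun G : ℕ → Set P => PseudoInt A G)

/-- The negated form of Q1: there are sets of real numbers `X = {X e : e ∈ E}` and
`Y = {Y e : e ∈ E'}` such that `|E| < 𝔭` (so that `|X| < 𝔭`), the Hausdorff dimension of `Y` is `0`
and the Hausdorff dimension of `X × Y` is not `0`. -/
def NegQ1 : Set P :=
  fex fun E : Type => fex fun X : E → RName P => fex fun E' : Type => fex fun Y : E' → RName P =>
    fand (fand (fall fun e => IsReal (X e)) (fall fun e => IsReal (Y e)))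
      (fand (BelowP P E) (fand (DimZero Y) (fnot (DimZeroProd X Y))))

/-- the countable chain condition -/
def CCC (P : Type) [Preorder P] : Prop :=
  ∀ A : Set P, (∀ a ∈ A, ∀ b ∈ A, (∃ r, r ≤ a ∧ r ≤ b) → a = b) → A.Countable

end

end Pool.Agent.Helper835.PXD
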