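import Mathlib

/-!
# Two numeric lemmas
-/

set_option autoImplicit false

namespace Pool.Agent.Helper835.PX


/-- the block ends -/
def bN (k : ℕ) : ℕ := (k + 2).factorial

/-- The total `s`-weight of the intervals of the blocks `k ≥ K` (there are `4 ^ bN k` intervals of
length `2 / 4 ^ bN (k + 1)` for block `k`) is small when `K` is large. -/
theorem small_sum (s ε : ℝ) (hs : 0 < s) (hε : 0 < ε) : ∃ K : ℕ, ∀ F : Finset (ℕ × ℕ),
    (∀ x ∈ F, K ≤ x.1 ∧ x.2 < 4 ^ bN x.1) →
    ∑ x ∈ F, ((2 : ℝ) / 4 ^ bN (x.1 + 1)) ^ s ≤ ε := by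
  have hbk : ∀ k, k ≤ bN k := fun k => le_trans (by omega) (Nat.self_le_factorial (k + 2))
  have hbs : ∀ k, bN (k + 1) = (k + 3) * bN k := fun k => by
    unfold bN
    rw [show k + 1 + 2 = (k + 2) + 1 by ring, Nat.factorial_succ]
  obtain ⟨K1, hK1⟩ := exists_nat_ge (2 / s)
  have hCpos : (0 : ℝ) < 2 ^ s * 2 := by positivity
  obtain ⟨K2, hK2⟩ := exists_pow_lt_of_lt_one (show (0 : ℝ) < ε / (2 ^ s * 2) by positivity)
    (show (1 / 2 : ℝ) < 1 by norm_num)
  refine ⟨max K1 K2, fun F hF => ?_⟩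
  -- block bound
  have hblock : ∀ k, K1 ≤ k → (4 : ℝ) ^ bN k * ((2 : ℝ) / 4 ^ bN (k + 1)) ^ s
      ≤ 2 ^ s * (1 / 4) ^ k := by
    intro k hk
    have h2 : 2 ≤ s * (k + 3 : ℝ) := by
      have : 2 / s ≤ (k : ℝ) := hK1.trans (by exact_mod_cast hk)
      rw [div_le_iff₀ hs] at this
      nlinarith
    have e1 : ((2 : ℝ) / 4 ^ bN (k + 1)) ^ s = 2 ^ s / (4 : ℝ) ^ ((bN (k + 1) : ℝ) * s) := by
      rw [Real.div_rpow (by norm_num) (by positivity), Real.rpow_mul (by norm_num),
        Real.rpow_natCast]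
    have e2 : (4 : ℝ) ^ (2 * (bN k : ℝ)) ≤ (4 : ℝ) ^ ((bN (k + 1) : ℝ) * s) := by
      apply Real.rpow_le_rpow_of_exponent_le (by norm_num)
      rw [hbs]
      push_cast
      have : (0 : ℝ) ≤ bN k := by positivity
      nlinarith
    have e3 : (4 : ℝ) ^ (2 * (bN k : ℝ)) = 4 ^ bN k * 4 ^ bN k := by
      rw [show 2 * (bN k : ℝ) = (bN k : ℝ) + bN k by ring, Real.rpow_add (by norm_num),
        Real.rpow_natCast]
    rw [e1]
    have hp : (0 : ℝ) < 4 ^ bN k := by positivity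
    calc (4 : ℝ) ^ bN k * (2 ^ s / (4 : ℝ) ^ ((bN (k + 1) : ℝ) * s))
        ≤ (4 : ℝ) ^ bN k * (2 ^ s / (4 ^ bN k * 4 ^ bN k)) := by
          rw [← e3]
          gcongr
      _ = 2 ^ s * (1 / 4) ^ bN k := by
          rw [one_div, inv_pow]
          field_simp
      _ ≤ 2 ^ s * (1 / 4) ^ k := by
          apply mul_le_mul_of_nonneg_left _ (by positivity)
          exact pow_le_pow_of_le_one (by norm_num) (by norm_num) (hbk k)
  have hmaps : ∀ x ∈ F, x.1 ∈ F.image Prod.fst := fun x hx => Finset.mem_image_of_mem _ hx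
  rw [← Finset.sum_fiberwise_of_maps_to hmaps]
  have hfib : ∀ k ∈ F.image Prod.fst, ∑ x ∈ F with x.1 = k, ((2 : ℝ) / 4 ^ bN (x.1 + 1)) ^ s
      ≤ 2 ^ s * (1 / 2) ^ (max K1 K2) * (1 / 2) ^ k := by
    intro k hk
    obtain ⟨x0, hx0, rfl⟩ := Finset.mem_image.1 hk
    have hk0 := (hF x0 hx0).1
    have hcard : (F.filter (fun x => x.1 = x0.1)).card ≤ 4 ^ bN x0.1 := by
      have : (F.filter (fun x => x.1 = x0.1)).card ≤ (Finset.range (4 ^ bN x0.1)).card := by
        apply Finset.card_le_card_of_injOn (fun x => x.2)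
        · intro x hx
          simp only [Finset.coe_filter, Set.mem_setOf_eq] at hx
          have := (hF x hx.1).2
          rw [hx.2] at this
          simpa using this
        · intro x hx y hy hxy
          simp only [Finset.coe_filter, Set.mem_setOf_eq] at hx hy
          exact Prod.ext (hx.2.trans hy.2.symm) hxy
      simpa using this
    calc ∑ x ∈ F with x.1 = x0.1, ((2 : ℝ) / 4 ^ bN (x.1 + 1)) ^ s
        = ∑ x ∈ F with x.1 = x0.1, ((2 : ℝ) / 4 ^ bN (x0.1 + 1)) ^ s := by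
          apply Finset.sum_congr rfl
          intro x hx
          rw [(Finset.mem_filter.1 hx).2]
      _ = ((F.filter (fun x => x.1 = x0.1)).card : ℝ) * ((2 : ℝ) / 4 ^ bN (x0.1 + 1)) ^ s := by
          rw [Finset.sum_const, nsmul_eq_mul]
      _ ≤ (4 : ℝ) ^ bN x0.1 * ((2 : ℝ) / 4 ^ bN (x0.1 + 1)) ^ s := by
          apply mul_le_mul_of_nonneg_right _ (by positivity)
          exact_mod_cast hcard
      _ ≤ 2 ^ s * (1 / 4) ^ x0.1 := hblock _ ((le_max_left _ _).trans hk0)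
      _ = 2 ^ s * ((1 / 2) ^ x0.1 * (1 / 2) ^ x0.1) := by
          rw [← mul_pow]; norm_num
      _ ≤ 2 ^ s * ((1 / 2) ^ (max K1 K2) * (1 / 2) ^ x0.1) := by
          apply mul_le_mul_of_nonneg_left _ (by positivity)
          apply mul_le_mul_of_nonneg_right _ (by positivity)
          exact pow_le_pow_of_le_one (by norm_num) (by norm_num) hk0
      _ = _ := by ring
  refine (Finset.sum_le_sum hfib).trans ?_
  rw [← Finset.mul_sum]
  have hgeo : ∑ k ∈ F.image Prod.fst, (1 / 2 : ℝ) ^ k ≤ 2 := by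
    have h1 : Summable (fun k : ℕ => (1 / 2 : ℝ) ^ k) := summable_geometric_two
    have h2 := h1.sum_le_tsum (F.image Prod.fst) (fun k _ => by positivity)
    rwa [tsum_geometric_two] at h2
  have hpow : (1 / 2 : ℝ) ^ (max K1 K2) ≤ ε / (2 ^ s * 2) :=
    (pow_le_pow_of_le_one (by norm_num) (by norm_num) (le_max_right _ _)).trans hK2.le
  calc 2 ^ s * (1 / 2) ^ (max K1 K2) * ∑ k ∈ F.image Prod.fst, (1 / 2 : ℝ) ^ k
      ≤ 2 ^ s * (1 / 2) ^ (max K1 K2) * 2 := by
        apply mul_le_mul_of_nonneg_left hgeo (by positivity)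
    _ = (1 / 2) ^ (max K1 K2) * (2 ^ s * 2) := by ring
    _ ≤ ε / (2 ^ s * 2) * (2 ^ s * 2) := by
        apply mul_le_mul_of_nonneg_right hpow hCpos.le
    _ = ε := by field_simp



/-- the value of the first `n` digits in base `4`, as an integer -/
def V (d : ℕ → ℤ) : ℕ → ℤ
  | 0 => 0
  | n + 1 => 4 * V d n + d n

/-- binary digits as integers -/
def dg (t : ℕ → Bool) (i : ℕ) : ℤ := if t i then 1 else 0

/-- binary value of the first `n` digits -/
def no_cover_B (t : ℕ → Bool) : ℕ → ℤ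
  | 0 => 0
  | n + 1 => 2 * no_cover_B t n + dg t n

theorem no_cover_dg (t : ℕ → Bool) (i : ℕ) : dg t i = 0 ∨ dg t i = 1 := by
  unfold dg
  split_ifs <;> simp

theorem no_cover_key (t t' : ℕ → Bool) (n : ℕ) :
    0 ≤ no_cover_B t' n - no_cover_B t n → (no_cover_B t' n - no_cover_B t n + 1) ^ 2 ≤
      3 * (V (fun j => 1 + dg t' j) n - V (fun j => 1 + dg t j) n) + 1 := by
  induction n with
  | zero => simp [no_cover_B, V]
  | succ n ih =>
    intro h
    simp only [no_cover_B, V] at h ⊢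
    rcases no_cover_dg t n with ht | ht <;> rcases no_cover_dg t' n with ht' | ht' <;>
      rw [ht, ht'] at h ⊢
    · have h1 : 0 ≤ no_cover_B t' n - no_cover_B t n := by omega
      have := ih h1
      nlinarith
    · have h1 : 0 ≤ no_cover_B t' n - no_cover_B t n := by omega
      have := ih h1
      nlinarith
    · have h1 : 1 ≤ no_cover_B t' n - no_cover_B t n := by omega
      have := ih (by omega)
      nlinarith
    · have h1 : 0 ≤ no_cover_B t' n - no_cover_B t n := by omega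
      have := ih h1
      nlinarith

theorem no_cover_congr (t t' : ℕ → Bool) (n : ℕ) (h : ∀ j < n, t j = t' j) :
    no_cover_B t n = no_cover_B t' n := by
  induction n with
  | zero => rfl
  | succ n ih =>
    simp only [no_cover_B, dg]
    rw [ih (fun j hj => h j (by omega)), h n (by omega)]

theorem no_cover_ex (n : ℕ) : ∀ b : ℕ, b < 2 ^ n → ∃ t : ℕ → Bool, no_cover_B t n = b := by
  induction n with
  | zero =>
    intro b hb
    refine ⟨fun _ => false, ?_⟩
    simp only [no_cover_B]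
    simp at hb
    simp [hb]
  | succ n ih =>
    intro b hb
    obtain ⟨t, ht⟩ := ih (b / 2) (by rw [pow_succ] at hb; omega)
    refine ⟨fun j => if j < n then t j else decide (b % 2 = 1), ?_⟩
    simp only [no_cover_B]
    rw [no_cover_congr _ t n (by intro j hj; simp [hj]), ht]
    simp only [dg, lt_irrefl, if_false, decide_eq_true_eq]
    split_ifs <;> omega

/-- The level `N` cells of the set of reals with base `4` digits in `{1, 2}` are not covered by
finitely many intervals `(u i, l i)` with `∑ (l i - u i) ^ (1 / 2) ≤ 1 / 3`. -/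
theorem no_cover (F : Finset ℕ) (u l : ℕ → ℚ)
    (h : ∑ i ∈ F, (max (((l i - u i : ℚ) : ℝ)) 0) ^ ((1 : ℝ) / 2) ≤ 1 / 3) (N : ℕ)
    (hc : ∀ t : ℕ → Bool, ∃ i ∈ F, u i < (V (fun j => 1 + dg t j) N : ℚ) / 4 ^ N ∧
      ((V (fun j => 1 + dg t j) N : ℚ) + 1) / 4 ^ N ≤ l i) : False := by
  classical
  choose! tb htb using no_cover_ex N
  set Ti : ℕ → Finset ℕ := fun i => (Finset.range (2 ^ N)).filter
    (fun b => u i < (V (fun j => 1 + dg (tb b) j) N : ℚ) / 4 ^ N ∧
      ((V (fun j => 1 + dg (tb b) j) N : ℚ) + 1) / 4 ^ N ≤ l i) with hTi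
  have hcov : Finset.range (2 ^ N) ⊆ F.biUnion Ti := by
    intro b hb
    obtain ⟨i, hi, h1⟩ := hc (tb b)
    rw [Finset.mem_biUnion]
    refine ⟨i, hi, ?_⟩
    rw [hTi, Finset.mem_filter]
    exact ⟨hb, h1⟩
  have hcard : ∀ i ∈ F, ((Ti i).card : ℝ) ≤
      Real.sqrt 3 * 2 ^ N * (max (((l i - u i : ℚ) : ℝ)) 0) ^ ((1 : ℝ) / 2) := by
    intro i _
    rw [← Real.sqrt_eq_rpow]
    rcases (Ti i).eq_empty_or_nonempty with he | hne
    · rw [he]
      simp only [Finset.card_empty, Nat.cast_zero]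
      positivity
    · set m := (Ti i).min' hne with hm
      set M := (Ti i).max' hne with hM
      have hmm : m ∈ Ti i := Finset.min'_mem _ _
      have hMM : M ∈ Ti i := Finset.max'_mem _ _
      have hle : m ≤ M := Finset.min'_le _ _ hMM
      have hsub : Ti i ⊆ Finset.Icc m M := by
        intro b hb
        rw [Finset.mem_Icc]
        exact ⟨Finset.min'_le _ _ hb, Finset.le_max' _ _ hb⟩
      have hc1 : (Ti i).card ≤ M + 1 - m := by
        refine (Finset.card_le_card hsub).trans ?_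
        rw [Nat.card_Icc]
      rw [hTi, Finset.mem_filter, Finset.mem_range] at hmm hMM
      have hk := no_cover_key (tb m) (tb M) N
      rw [htb m hmm.1, htb M hMM.1] at hk
      have hk1 := hk (by omega)
      set A := V (fun j => 1 + dg (tb m) j) N with hA
      set B := V (fun j => 1 + dg (tb M) j) N with hB
      have hu : u i < (A : ℚ) / 4 ^ N := hmm.2.1
      have hl : ((B : ℚ) + 1) / 4 ^ N ≤ l i := hMM.2.2
      have h4 : (0 : ℚ) < 4 ^ N := by positivity
      have hL : ((B : ℚ) - A + 1) ≤ (l i - u i) * 4 ^ N := by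
        rw [lt_div_iff₀ h4] at hu
        rw [div_le_iff₀ h4] at hl
        linarith
      have hLR : ((B : ℝ) - A + 1) ≤ ((l i - u i : ℚ) : ℝ) * 4 ^ N := by
        exact_mod_cast hL
      have hcr : ((Ti i).card : ℝ) ≤ (M : ℝ) - m + 1 := by
        have : (((Ti i).card : ℕ) : ℝ) ≤ ((M + 1 - m : ℕ) : ℝ) := by exact_mod_cast hc1
        rw [Nat.cast_sub (by omega)] at this
        push_cast at this
        linarith
      have hkR : ((M : ℝ) - m + 1) ^ 2 ≤ 3 * ((B : ℝ) - A) + 1 := by exact_mod_cast hk1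
      have hsq : ((M : ℝ) - m + 1) ^ 2 ≤ 3 * (2 ^ N) ^ 2 * max (((l i - u i : ℚ) : ℝ)) 0 := by
        have h24 : ((2 : ℝ) ^ N) ^ 2 = 4 ^ N := by
          rw [← pow_mul, mul_comm, pow_mul]
          norm_num
        rw [h24]
        have hmx : ((l i - u i : ℚ) : ℝ) * 4 ^ N ≤ max (((l i - u i : ℚ) : ℝ)) 0 * 4 ^ N :=
          mul_le_mul_of_nonneg_right (le_max_left _ _) (by positivity)
        linarith
      refine hcr.trans ?_
      have hR : Real.sqrt 3 * 2 ^ N * Real.sqrt (max (((l i - u i : ℚ) : ℝ)) 0) =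
          Real.sqrt (3 * (2 ^ N) ^ 2 * max (((l i - u i : ℚ) : ℝ)) 0) := by
        rw [Real.sqrt_mul (by positivity), Real.sqrt_mul (by positivity),
          Real.sqrt_sq (by positivity)]
      rw [hR]
      exact Real.le_sqrt_of_sq_le hsq
  have h1 : ((2 : ℝ) ^ N) ≤ ∑ i ∈ F, ((Ti i).card : ℝ) := by
    have h2 : 2 ^ N ≤ ∑ i ∈ F, (Ti i).card := by
      have h3 := (Finset.card_le_card hcov).trans Finset.card_biUnion_le
      rwa [Finset.card_range] at h3
    exact_mod_cast h2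
  have h2 : ∑ i ∈ F, ((Ti i).card : ℝ) ≤ Real.sqrt 3 * 2 ^ N *
      ∑ i ∈ F, (max (((l i - u i : ℚ) : ℝ)) 0) ^ ((1 : ℝ) / 2) := by
    rw [Finset.mul_sum]
    exact Finset.sum_le_sum hcard
  have h3 : Real.sqrt 3 * 2 ^ N * ∑ i ∈ F, (max (((l i - u i : ℚ) : ℝ)) 0) ^ ((1 : ℝ) / 2) ≤
      Real.sqrt 3 * 2 ^ N * (1 / 3) := mul_le_mul_of_nonneg_left h (by positivity)
  have h4 : Real.sqrt 3 < 2 := by
    rw [Real.sqrt_lt' (by norm_num)]
    norm_num
  have h5 : (0 : ℝ) < 2 ^ N := by positivity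
  nlinarith

end Pool.Agent.Helper835.PX
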