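import Mathlib
import Pool.Agent.Helper161.Gam.Poset
import Pool.Agent.Helper161.Gam.Lang

/-!
# The forcing notion
-/

set_option autoImplicit false

namespace Pool.Agent.Helper835.PX

open Pool.Agent.Helper161.Gam

/-- the index set of the ground model set of reals -/
abbrev E : Type := ℕ → Bool

/-- coordinates: a coordinate which is a node codes a family of countable sets of conditions -/
inductive Co : Type
  | leaf : Co
  | node (ok : E → ℕ → ℕ → Bool) (k : E → ℕ → ℕ → ℕ) (c : E → ℕ → ℕ → ℕ → Co)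
      (s : E → ℕ → ℕ → ℕ → Finset ℕ) (h : E → ℕ → ℕ → ℕ → Finset E) : Co

/-- the part of a condition at a coordinate: a finite stem and a finite set of promises -/
structure Atm : Type where
  st : Finset ℕ
  pr : Finset E

instance : Zero Atm := ⟨⟨∅, ∅⟩⟩

theorem st_zero : (0 : Atm).st = ∅ := rfl
theorem pr_zero : (0 : Atm).pr = ∅ := rfl

/-- conditions -/
abbrev Cnd : Type := Co →₀ Atm

/-- `q` is below the atom `(s, h)` at the coordinate `a` -/
def Lb (q : Cnd) : Co → Finset ℕ → Finset E → Prop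
  | .leaf => fun s' h' => s' ⊆ (q .leaf).st ∧ h' ⊆ (q .leaf).pr
  | .node ok k c s h => fun s' h' =>
      s' ⊆ (q (.node ok k c s h)).st ∧ h' ⊆ (q (.node ok k c s h)).pr ∧
        ∀ n ∈ (q (.node ok k c s h)).st, n ∉ s' → ∀ e ∈ h', ∃ j, ok e n j = true ∧
          ∀ i < k e n j, Lb q (c e n j i) (s e n j i) (h e n j i)

theorem Lb_st {q : Cnd} {a : Co} {s : Finset ℕ} {h : Finset E} (hL : Lb q a s h) :
    s ⊆ (q a).st := by
  cases a with
  | leaf => exact hL.1
  | node => exact hL.1

theorem Lb_pr {q : Cnd} {a : Co} {s : Finset ℕ} {h : Finset E} (hL : Lb q a s h) :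
    h ⊆ (q a).pr := by
  cases a with
  | leaf => exact hL.2
  | node => exact hL.2.1

theorem Lb_of {q : Cnd} {a : Co} {s : Finset ℕ} {h : Finset E} (hs : s = (q a).st)
    (hh : h ⊆ (q a).pr) : Lb q a s h := by
  subst hs
  cases a with
  | leaf => exact ⟨subset_rfl, hh⟩
  | node => exact ⟨subset_rfl, hh, fun n hn hn' => absurd hn hn'⟩

theorem Lb_empty (q : Cnd) (a : Co) : Lb q a ∅ ∅ := by
  cases a with
  | leaf => exact ⟨Finset.empty_subset _, Finset.empty_subset _⟩
  | node => exact ⟨Finset.empty_subset _, Finset.empty_subset _,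
      fun n hn hn' e he => absurd he (Finset.notMem_empty e)⟩

theorem Lb_mono {q r : Cnd} (hr : ∀ a, Lb r a (q a).st (q a).pr) (a : Co) :
    ∀ s h, Lb q a s h → Lb r a s h := by
  induction a with
  | leaf =>
    intro s h hL
    exact ⟨hL.1.trans (Lb_st (hr _)), hL.2.trans (Lb_pr (hr _))⟩
  | node ok k c s h ih =>
    intro s' h' hL
    have hra := hr (.node ok k c s h)
    refine ⟨hL.1.trans hra.1, hL.2.1.trans hra.2.1, fun n hn hn' e he => ?_⟩
    by_cases hnq : n ∈ (q (.node ok k c s h)).st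
    · obtain ⟨j, hj, hj'⟩ := hL.2.2 n hnq hn' e he
      exact ⟨j, hj, fun i hi => ih e n j i _ _ (hj' i hi)⟩
    · exact hra.2.2 n hn hnq e (hL.2.1 he)

instance : Preorder Cnd where
  le q p := ∀ a, Lb q a (p a).st (p a).pr
  le_refl q a := Lb_of rfl subset_rfl
  le_trans r q p hrq hqp a := Lb_mono hrq a _ _ (hqp a)

theorem le_def {q p : Cnd} : q ≤ p ↔ ∀ a, Lb q a (p a).st (p a).pr := Iff.rfl

theorem le_of_supp {q p : Cnd} (h : ∀ a ∈ p.support, Lb q a (p a).st (p a).pr) : q ≤ p := by
  intro a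
  by_cases ha : a ∈ p.support
  · exact h a ha
  · rw [Finsupp.notMem_support_iff.1 ha, st_zero, pr_zero]
    exact Lb_empty q a

/-- closed under children -/
def Cl (D : Set Co) : Prop :=
  ∀ ok k c s h, Co.node ok k c s h ∈ D → ∀ e n j i, c e n j i ∈ D

theorem Lb_agree {D : Set Co} (hD : Cl D) {q q' : Cnd} (hq : ∀ a ∈ D, q' a = q a) (a : Co) :
    a ∈ D → ∀ s h, Lb q a s h → Lb q' a s h := by
  induction a with
  | leaf =>
    intro ha s h hL
    refine ⟨?_, ?_⟩
    · rw [hq _ ha]; exact hL.1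
    · rw [hq _ ha]; exact hL.2
  | node ok k c s h ih =>
    intro ha s' h' hL
    refine ⟨?_, ?_, ?_⟩
    · rw [hq _ ha]; exact hL.1
    · rw [hq _ ha]; exact hL.2.1
    · rw [hq _ ha]
      intro n hn hn' e he
      obtain ⟨j, hj, hj'⟩ := hL.2.2 n hn hn' e he
      exact ⟨j, hj, fun i hi => ih e n j i (hD _ _ _ _ _ ha e n j i) _ _ (hj' i hi)⟩

theorem le_agree {D : Set Co} (hD : Cl D) {q q' p : Cnd} (hq : ∀ a ∈ D, q' a = q a)
    (hp : ∀ a, a ∈ p.support → a ∈ D) (h : q ≤ p) : q' ≤ p :=
  le_of_supp fun a ha => Lb_agree hD hq a (hp a ha) _ _ (h a)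

open Classical in
/-- the condition which is `r` on `D` and `p` off `D` -/
noncomputable def am (D : Set Co) (r p : Cnd) : Cnd :=
  Finsupp.onFinset (r.support ∪ p.support) (fun a => if a ∈ D then r a else p a) (by
    intro a ha
    rw [Finset.mem_union, Finsupp.mem_support_iff, Finsupp.mem_support_iff]
    by_cases h : a ∈ D
    · simp only [h, if_true] at ha
      exact Or.inl ha
    · simp only [h, if_false] at ha
      exact Or.inr ha)

theorem am_in {D : Set Co} {r p : Cnd} {a : Co} (h : a ∈ D) : am D r p a = r a := by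
  unfold am
  rw [Finsupp.onFinset_apply, if_pos h]

theorem am_out {D : Set Co} {r p : Cnd} {a : Co} (h : a ∉ D) : am D r p a = p a := by
  unfold am
  rw [Finsupp.onFinset_apply, if_neg h]

theorem am_le {D : Set Co} (hD : Cl D) {r p : Cnd}
    (h : ∀ a ∈ D, Lb r a (p a).st (p a).pr) : am D r p ≤ p := by
  intro a
  by_cases ha : a ∈ D
  · exact Lb_agree hD (fun b hb => am_in hb) a ha _ _ (h a ha)
  · exact Lb_of (by rw [am_out ha]) (by rw [am_out ha])

/-- restriction of a condition -/
noncomputable def res (D : Set Co) (p : Cnd) : Cnd := am D p 0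

theorem res_in {D : Set Co} {p : Cnd} {a : Co} (h : a ∈ D) : res D p a = p a := am_in h

theorem res_out {D : Set Co} {p : Cnd} {a : Co} (h : a ∉ D) : res D p a = 0 := am_out h

theorem res_supp {D : Set Co} {p : Cnd} {a : Co} (h : a ∈ (res D p).support) : a ∈ D := by
  by_contra hcon
  exact (Finsupp.mem_support_iff.1 h) (res_out hcon)

/-- finitely many conditions with a common stem function have a common lower bound -/
theorem common_lb (F : Finset Cnd) (g : Co → Finset ℕ)
    (h : ∀ p ∈ F, ∀ a ∈ p.support, (p a).st = g a) : ∃ r : Cnd, ∀ p ∈ F, r ≤ p := by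
  classical
  refine ⟨Finsupp.onFinset (F.biUnion fun p => p.support)
    (fun a => if a ∈ F.biUnion (fun p => p.support) then ⟨g a, F.biUnion fun p => (p a).pr⟩
      else 0) ?_, ?_⟩
  · intro a ha
    by_contra hcon
    exact ha (if_neg hcon)
  · intro p hp
    refine le_of_supp fun a ha => ?_
    have hmem : a ∈ F.biUnion (fun p => p.support) := Finset.mem_biUnion.2 ⟨p, hp, ha⟩
    refine Lb_of ?_ ?_
    · rw [Finsupp.onFinset_apply, if_pos hmem]
      exact h p hp a ha
    · rw [Finsupp.onFinset_apply, if_pos hmem]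
      intro e he
      exact Finset.mem_biUnion.2 ⟨p, hp, he⟩

theorem ccc : CCC Cnd := by
  classical
  intro A hA
  by_contra hcon
  have hY : ¬ Countable A := fun h => hcon (Set.countable_coe_iff.1 h)
  obtain ⟨y, y', hne, hagree⟩ := exists_agree (I := Co) (Y := A)
    (fun b => {i | (b : Cnd) i ≠ 0}) (fun b => by
      refine (b : Cnd).support.finite_toSet.subset fun i hi => ?_
      have hi' : (b : Cnd) i ≠ 0 := hi
      simpa using hi')
    (fun b i => Encodable.encode ((b : Cnd) i).st) hY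
  obtain ⟨r, hr⟩ := common_lb {(y : Cnd), (y' : Cnd)}
    (fun a => if (y : Cnd) a = 0 then ((y' : Cnd) a).st else ((y : Cnd) a).st) (by
      intro p hp a ha
      rw [Finsupp.mem_support_iff] at ha
      rw [Finset.mem_insert, Finset.mem_singleton] at hp
      rcases hp with rfl | rfl
      · rw [if_neg ha]
      · by_cases h0 : (y : Cnd) a = 0
        · rw [if_pos h0]
        · rw [if_neg h0]
          exact (Encodable.encode_injective (hagree a h0 ha)).symm)
  exact hne (Subtype.ext (hA y y.2 y' y'.2 ⟨r, hr _ (by simp), hr _ (by simp)⟩))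

/-- the proper descendants of a coordinate -/
def Desc : Co → Set Co
  | .leaf => ∅
  | .node _ _ c _ _ => {b | ∃ e n j i, b = c e n j i ∨ b ∈ Desc (c e n j i)}

theorem desc_trans (a : Co) : ∀ b, b ∈ Desc a → ∀ x, x ∈ Desc b → x ∈ Desc a := by
  induction a with
  | leaf => intro b hb; exact absurd hb (Set.notMem_empty b)
  | node ok k c s h ih =>
    rintro b ⟨e, n, j, i, hb⟩ x hx
    rcases hb with rfl | hb
    · exact ⟨e, n, j, i, Or.inr hx⟩
    · exact ⟨e, n, j, i, Or.inr (ih e n j i b hb x hx)⟩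

theorem desc_cl (a : Co) : Cl (Desc a) := by
  intro ok k c s h hm e n j i
  exact desc_trans a _ hm _ ⟨e, n, j, i, Or.inl rfl⟩

theorem desc_irrefl (a : Co) : a ∉ Desc a := by
  induction a with
  | leaf => exact Set.notMem_empty _
  | node ok k c s h ih =>
    rintro ⟨e, n, j, i, hb⟩
    have hc : c e n j i ∈ Desc (.node ok k c s h) := ⟨e, n, j, i, Or.inl rfl⟩
    rcases hb with hb | hb
    · apply ih e n j i
      rw [hb] at hc
      exact hc
    · exact ih e n j i (desc_trans _ _ hb _ hc)

/-- each family of sequences of conditions is coded by a coordinate -/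
theorem exists_node (B : E → ℕ → ℕ → Option Cnd) : ∃ a : Co,
    (∀ e n j b, B e n j = some b → ∀ x ∈ b.support, x ∈ Desc a) ∧
    ∀ (q : Cnd) (s' : Finset ℕ) (h' : Finset E), Lb q a s' h' ↔
      s' ⊆ (q a).st ∧ h' ⊆ (q a).pr ∧ ∀ n ∈ (q a).st, n ∉ s' → ∀ e ∈ h',
        ∃ j b, B e n j = some b ∧ q ≤ b := by
  classical
  let l : E → ℕ → ℕ → List Co := fun e n j => ((B e n j).getD 0).support.toList
  let cc : E → ℕ → ℕ → ℕ → Co := fun e n j i => ((l e n j)[i]?).getD .leaf
  let a : Co := .node (fun e n j => (B e n j).isSome) (fun e n j => (l e n j).length) cc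
    (fun e n j i => (((B e n j).getD 0) (cc e n j i)).st)
    (fun e n j i => (((B e n j).getD 0) (cc e n j i)).pr)
  have hcc : ∀ e n j i (hi : i < (l e n j).length), cc e n j i = (l e n j)[i] := by
    intro e n j i hi
    show ((l e n j)[i]?).getD .leaf = _
    rw [List.getElem?_eq_getElem hi]
    rfl
  refine ⟨a, ?_, ?_⟩
  · intro e n j b hb x hx
    have hx' : x ∈ l e n j := by
      show x ∈ ((B e n j).getD 0).support.toList
      rw [hb, Finset.mem_toList]
      exact hx
    obtain ⟨i, hi, hxi⟩ := List.getElem_of_mem hx'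
    exact ⟨e, n, j, i, Or.inl (by rw [hcc e n j i hi]; exact hxi.symm)⟩
  · intro q s' h'
    constructor
    · intro hL
      refine ⟨hL.1, hL.2.1, fun n hn hn' e he => ?_⟩
      obtain ⟨j, hj, hj'⟩ := hL.2.2 n hn hn' e he
      obtain ⟨b, hb⟩ := Option.isSome_iff_exists.1 hj
      refine ⟨j, b, hb, le_of_supp fun x hx => ?_⟩
      have hx' : x ∈ l e n j := by
        show x ∈ ((B e n j).getD 0).support.toList
        rw [hb, Finset.mem_toList]
        exact hx
      obtain ⟨i, hi, hxi⟩ := List.getElem_of_mem hx'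
      have h1 := hj' i hi
      have h2 : cc e n j i = x := by rw [hcc e n j i hi]; exact hxi
      dsimp only at h1
      rw [h2, hb] at h1
      exact h1
    · rintro ⟨h1, h2, h3⟩
      refine ⟨h1, h2, fun n hn hn' e he => ?_⟩
      obtain ⟨j, b, hb, hqb⟩ := h3 n hn hn' e he
      refine ⟨j, by dsimp only; rw [hb]; rfl, fun i hi => ?_⟩
      dsimp only
      rw [hb]
      exact hqb _

end Pool.Agent.Helper835.PX
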