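import Mathlib
import Pool.Agent.Helper161.Gam.Statement

/-!
# The statement `|E| < 𝔭` and the negation of Q1, in the forcing language
-/

set_option autoImplicit false

namespace Pool.Agent.Helper835.PX

open Pool.Agent.Helper161.Gam

section

variable {P : Type} [Preorder P]

/-- For the family `A e`, `e ∈ E`, of subsets of `ℕ` (`A e n` is a name of the statement
`n ∈ A e`): the intersection of finitely many members of the family is infinite. -/
def SFIP {E : Type} (A : E → ℕ → Set P) : Set P :=
  fall fun H : Finset E => fall fun m : ℕ => fex fun n : ℕ =>
    fand (fground (m ≤ n)) (fall fun e => fall fun _ : e ∈ H => meets (A e n))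

/-- The set `G ⊆ ℕ` is infinite, and `G \ A e` is finite for all `e ∈ E`. -/
def PseudoInt {E : Type} (A : E → ℕ → Set P) (G : ℕ → Set P) : Set P :=
  fand (fall fun m : ℕ => fex fun n : ℕ => fand (fground (m ≤ n)) (meets (G n)))
    (fall fun e => fex fun m : ℕ => fall fun n : ℕ =>
      fimp (fand (fground (m ≤ n)) (meets (G n))) (meets (A e n)))

variable (P)

/-- `|E| < 𝔭`: each family of subsets of `ℕ` with index set `E` such that the intersections of
finitely many members are infinite has an infinite pseudo-intersection. -/
def BelowP (E : Type) : Set P :=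
  fall fun A : E → ℕ → Set P => fimp (SFIP A) (fex fun G : ℕ → Set P => PseudoInt A G)

/-- The negation of Q1: there are sets of real numbers `X = {X e : e ∈ E}` and `Y` such that
`|E| < 𝔭` (so that `|X| < 𝔭`), the Hausdorff dimension of `Y` is `0` and the Hausdorff dimension
of `X × Y` is not `0`. -/
def NegQ1 : Set P :=
  fex fun E : Type => fex fun X : E → RName P => fex fun E' : Type => fex fun Y : E' → RName P =>
    fand (fand (fall fun e => IsReal (X e)) (fall fun e => IsReal (Y e)))
      (fand (BelowP P E) (fand (DimZero Y) (fnot (DimZeroProd X Y))))

end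

end Pool.Agent.Helper835.PX
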