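import Mathlib
import Pool.Agent.Helper835.PX.Poset
import Pool.Agent.Helper835.PX.Statement

/-!
# The forcing notion forces `|2^ω ∩ V| < 𝔭`
-/

set_option autoImplicit false

namespace Pool.Agent.Helper835.PX

open Pool.Agent.Helper161.Gam

theorem exists_enum {X : Type} {B : Set X} (hB : B.Countable) :
    ∃ f : ℕ → Option X, ∀ b, b ∈ B ↔ ∃ j, f j = some b := by
  classical
  rcases B.eq_empty_or_nonempty with rfl | hne
  · exact ⟨fun _ => none, fun b => by simp⟩
  · obtain ⟨f, hf⟩ := hB.exists_eq_range hne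
    refine ⟨fun j => some (f j), fun b => ?_⟩
    rw [hf]
    simp

theorem fin_strengthen {P : Type} [Preorder P] {X : Type} (H : Finset X) (N : X → Set P)
    (hN : ∀ x ∈ H, Down (N x)) (p : P) (h : ∀ x ∈ H, ∀ q ≤ p, ∃ r ≤ q, r ∈ N x) :
    ∃ r ≤ p, ∀ x ∈ H, r ∈ N x := by
  classical
  induction H using Finset.induction_on with
  | empty => exact ⟨p, le_rfl, fun x hx => absurd hx (Finset.notMem_empty x)⟩
  | insert a H ha ih =>
    obtain ⟨r, hr, hr'⟩ := ih (fun x hx => hN x (Finset.mem_insert_of_mem hx))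
      (fun x hx => h x (Finset.mem_insert_of_mem hx))
    obtain ⟨t, ht, ht'⟩ := h a (Finset.mem_insert_self a H) r hr
    refine ⟨t, ht.trans hr, fun x hx => ?_⟩
    rcases Finset.mem_insert.1 hx with rfl | hx
    · exact ht'
    · exact hN x (Finset.mem_insert_of_mem hx) r (hr' x hx) t ht

theorem below_p (p : Cnd) : p ∈ BelowP Cnd E := by
  classical
  refine mem_fall.2 fun A => mem_fimp.2 fun q _ hq => ⟨q, le_rfl, ?_⟩
  have hB : ∀ e n, ∃ f : ℕ → Option Cnd, meets {r | ∃ j b, f j = some b ∧ r ≤ b} = meets (A e n) := by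
    intro e n
    obtain ⟨N', h1, h2, h3⟩ := ctbl_mts (nice_of_ccc ccc) (A e n)
    obtain ⟨f, hf⟩ := exists_enum h1
    refine ⟨f, ?_⟩
    have h4 : meets (A e n) = meets N' := h3.symm
    rw [h4]
    ext r
    constructor
    · intro hr t ht
      obtain ⟨t', ht', s, ⟨j, b, hb, hsb⟩, hs⟩ := hr t ht
      exact ⟨t', ht', b, (hf b).2 ⟨j, hb⟩, hs.trans hsb⟩
    · intro hr t ht
      obtain ⟨t', ht', b, hb, htb⟩ := hr t ht
      obtain ⟨j, hj⟩ := (hf b).1 hb
      exact ⟨t', ht', b, ⟨j, b, hj, le_rfl⟩, htb⟩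
  choose B hB using hB
  obtain ⟨a, ha1, ha2⟩ := exists_node B
  have hG : ∀ (r : Cnd) n, r ∈ meets {r : Cnd | n ∈ (r a).st} → ∃ t ≤ r, n ∈ (t a).st := by
    intro r n hr
    exact exists_of_meets (fun x hx y hy => Lb_st (le_def.1 hy a) hx) hr
  refine mem_fex_of_mem (fun n => {r | n ∈ (r a).st})
    (down_fand (down_fall fun _ => down_fex _) (down_fall fun _ => down_fex _)) ⟨?_, ?_⟩
  · intro m
    refine mem_fex.2 fun q' hq' => ?_
    obtain ⟨r, hr, n, hn1, hn2⟩ := mem_fex.1
      (hq (q' a).pr (max m ((q' a).st.sup id + 1))) q' hq'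
    have hn1' : max m ((q' a).st.sup id + 1) ≤ n := hn1
    have hnst : n ∉ (q' a).st := by
      intro hmem
      have h1 : n ≤ (q' a).st.sup id := Finset.le_sup (f := id) hmem
      have h2 := (le_max_right m ((q' a).st.sup id + 1)).trans hn1'
      omega
    obtain ⟨r1, hr1, hr1'⟩ := fin_strengthen (q' a).pr
      (fun e => {r : Cnd | ∃ j b, B e n j = some b ∧ r ≤ b})
      (by
        rintro e _ x ⟨j, b, hb, hxb⟩ y hy
        exact ⟨j, b, hb, hy.trans hxb⟩) r (by
        intro e he t ht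
        have h1 : r ∈ meets (A e n) := hn2 e he
        rw [← hB] at h1
        obtain ⟨t', ht', s, ⟨j, b, hb, hsb⟩, hs⟩ := h1 t ht
        exact ⟨t', ht', j, b, hb, hs.trans hsb⟩)
    obtain ⟨r3, hr3⟩ : ∃ r3 : Cnd, r3 = (am (Desc a) r1 q').update a
      ⟨insert n (q' a).st, (q' a).pr⟩ := ⟨_, rfl⟩
    have hr3a : r3 a = ⟨insert n (q' a).st, (q' a).pr⟩ := by
      rw [hr3, Finsupp.update_apply, if_pos rfl]
    have hr3D : ∀ x ∈ Desc a, r3 x = r1 x := by
      intro x hx
      have hne : x ≠ a := by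
        rintro rfl
        exact desc_irrefl _ hx
      rw [hr3, Finsupp.update_apply, if_neg hne, am_in hx]
    have hr3o : ∀ x, x ∉ Desc a → x ≠ a → r3 x = q' x := by
      intro x hx hne
      rw [hr3, Finsupp.update_apply, if_neg hne, am_out hx]
    have hle : r3 ≤ q' := by
      intro x
      by_cases hx : x ∈ Desc a
      · exact Lb_agree (desc_cl a) hr3D x hx _ _ ((hr1.trans hr) x)
      · by_cases hxa : x = a
        · subst hxa
          refine (ha2 _ _ _).2 ⟨?_, ?_, ?_⟩
          · rw [hr3a]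
            exact Finset.subset_insert _ _
          · rw [hr3a]
          · intro n' hn' hn'' e he
            rw [hr3a] at hn'
            have hnn : n' = n := by
              rcases Finset.mem_insert.1 hn' with h | h
              · exact h
              · exact absurd h hn''
            subst hnn
            obtain ⟨j, b, hb, hrb⟩ := hr1' e he
            exact ⟨j, b, hb, le_agree (desc_cl x) hr3D (fun y hy => ha1 e n' j b hb y hy) hrb⟩
        · exact Lb_of (by rw [hr3o x hx hxa]) (by rw [hr3o x hx hxa])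
    refine ⟨r3, hle, n, (le_max_left _ _).trans hn1', meets_of_mem ?_⟩
    show n ∈ (r3 a).st
    rw [hr3a]
    exact Finset.mem_insert_self _ _
  · intro e
    refine mem_fex.2 fun q' hq' => ?_
    obtain ⟨r, hr⟩ : ∃ r : Cnd, r = q'.update a ⟨(q' a).st, insert e (q' a).pr⟩ := ⟨_, rfl⟩
    have hra : r a = ⟨(q' a).st, insert e (q' a).pr⟩ := by
      rw [hr, Finsupp.update_apply, if_pos rfl]
    have hro : ∀ x, x ≠ a → r x = q' x := by
      intro x hx
      rw [hr, Finsupp.update_apply, if_neg hx]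
    have hle : r ≤ q' := by
      intro x
      by_cases hx : x = a
      · subst hx
        refine Lb_of ?_ ?_
        · rw [hra]
        · rw [hra]
          exact Finset.subset_insert _ _
      · exact Lb_of (by rw [hro x hx]) (by rw [hro x hx])
    refine ⟨r, hle, (q' a).st.sup id + 1, fun n => mem_fimp.2 fun t ht h => ⟨t, le_rfl, ?_⟩⟩
    obtain ⟨h1, h2⟩ := h
    have h1' : (q' a).st.sup id + 1 ≤ n := h1
    rw [← hB]
    intro t' ht'
    obtain ⟨u, hu, hun⟩ := hG t' n (down_meets _ _ h2 _ ht')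
    have hur := (hu.trans (ht'.trans ht)) a
    have hn : n ∉ (r a).st := by
      intro hmem
      rw [hra] at hmem
      have h3 : n ≤ (q' a).st.sup id := Finset.le_sup (f := id) hmem
      omega
    obtain ⟨j, b, hb, hub⟩ := ((ha2 _ _ _).1 hur).2.2 n hun hn e (by
      rw [hra]
      exact Finset.mem_insert_self _ _)
    exact ⟨u, hu, u, ⟨j, b, hb, hub⟩, le_rfl⟩

end Pool.Agent.Helper835.PX
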