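import Mathlib
import Pool.Agent.Helper835.PX.Poset
import Pool.Agent.Helper835.PX.PI
import Pool.Agent.Helper835.PX.Num

/-!
# Each sequence of bits in the extension agrees on infinitely many blocks with a sequence in the
ground model
-/

set_option autoImplicit false

namespace Pool.Agent.Helper835.PX

open Pool.Agent.Helper161.Gam Cardinal

/-- A name of a sequence of bits: `p ∈ Z n s` means that `p` decides the first `n` bits to be those
of `s`. -/
structure IsZ {P : Type} [Preorder P] (Z : ℕ → (ℕ → Bool) → Set P) : Prop where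
  down : ∀ n s, Down (Z n s)
  tot : ∀ p n, ∃ q ≤ p, ∃ s, q ∈ Z n s
  uniq : ∀ p n n' s s', p ∈ Z n s → p ∈ Z n' s' → ∀ i, i < n → i < n' → s i = s' i
  congr : ∀ p n n' s s', n' ≤ n → (∀ i < n', s i = s' i) → p ∈ Z n s → p ∈ Z n' s'

/-- The sequence named by `Z` agrees with `x` on infinitely many blocks. -/
def IO {P : Type} [Preorder P] (Z : ℕ → (ℕ → Bool) → Set P) (x : ℕ → Bool) : Prop :=
  ∀ p m, ∃ q ≤ p, ∃ k, m ≤ k ∧ ∃ s, q ∈ Z (bN (k + 1)) s ∧
    ∀ i, bN k ≤ i → i < bN (k + 1) → s i = x i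

theorem bN_strictMono : StrictMono bN := by
  apply strictMono_nat_of_lt_succ
  intro k
  unfold bN
  exact (Nat.factorial_lt (by omega)).2 (by omega)

theorem le_bN (k : ℕ) : k ≤ bN k := le_trans (by omega) (Nat.self_le_factorial (k + 2))

/-- a sequence of bits can be prescribed on all blocks -/
theorem exists_blocks (u : ℕ → ℕ → Bool) :
    ∃ x : ℕ → Bool, ∀ k i, bN k ≤ i → i < bN (k + 1) → x i = u k i := by
  classical
  refine ⟨fun i => u (Nat.findGreatest (fun k => bN k ≤ i) i) i, fun k i h1 h2 => ?_⟩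
  have h3 : Nat.findGreatest (fun k => bN k ≤ i) i = k := by
    apply le_antisymm
    · by_contra hcon
      rw [not_le] at hcon
      have h4 : bN (Nat.findGreatest (fun k => bN k ≤ i) i) ≤ i :=
        Nat.findGreatest_spec (P := fun k => bN k ≤ i) (le_trans (le_bN k) h1) h1
      have h5 := bN_strictMono.monotone (Nat.succ_le_of_lt hcon)
      rw [Nat.succ_eq_add_one] at h5
      omega
    · exact Nat.le_findGreatest (le_trans (le_bN k) h1) h1
  simp only [h3]

theorem card_E : #E = 𝔠 := by simp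

theorem mk_desc (a : Co) : #(Desc a) ≤ 𝔠 := by
  induction a with
  | leaf => simp [Desc]
  | node ok k c s h ih =>
    have h1 : Desc (.node ok k c s h) ⊆
        ⋃ x : E × ℕ × ℕ × ℕ, insert (c x.1 x.2.1 x.2.2.1 x.2.2.2)
          (Desc (c x.1 x.2.1 x.2.2.1 x.2.2.2)) := by
      rintro b ⟨e, n, j, i, hb⟩
      exact Set.mem_iUnion.2 ⟨(e, n, j, i), hb⟩
    refine (mk_le_mk_of_subset h1).trans ((mk_iUnion_le _).trans ?_)
    have hI : #(E × ℕ × ℕ × ℕ) ≤ 𝔠 := by
      simp [Cardinal.mk_prod]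
    refine mul_le_of_le aleph0_le_continuum hI (ciSup_le' fun x => ?_)
    refine (mk_insert_le).trans ?_
    exact add_le_of_le aleph0_le_continuum (ih _ _ _ _)
      (one_le_aleph0.trans aleph0_le_continuum)

/-- a countable family of functions which contains an extension of each function with a finite
domain contained in `D` -/
theorem exists_pieces {I V : Type} [Countable V] [Nonempty V] (D : Set I) (hD : #D ≤ 𝔠) :
    ∃ g : ℕ → I → V, ∀ (S : Finset I) (f : I → V), (∀ a ∈ S, a ∈ D) → ∃ j, ∀ a ∈ S, g j a = f a := by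
  classical
  have h1 : #D ≤ #(ℕ → Bool) := by
    rw [card_E]
    exact hD
  obtain ⟨ι⟩ := h1
  let ι' : I → ℕ → Bool := fun a => if h : a ∈ D then ι ⟨a, h⟩ else fun _ => false
  have hι : ∀ a ∈ D, ∀ b ∈ D, ι' a = ι' b → a = b := by
    intro a ha b hb hab
    simp only [ι', dif_pos ha, dif_pos hb] at hab
    exact congrArg Subtype.val (ι.injective hab)
  let M : Type := Σ m : ℕ, ((Fin m → Bool) → V)
  have hM : Nonempty M := ⟨⟨0, fun _ => Classical.arbitrary V⟩⟩
  obtain ⟨g0, hg0⟩ := exists_surjective_nat M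
  refine ⟨fun j a => (g0 j).2 (fun i => ι' a i), fun S f hS => ?_⟩
  -- a level at which the members of `S` are different
  have hm : ∃ m : ℕ, ∀ a ∈ S, ∀ b ∈ S, (∀ i < m, ι' a i = ι' b i) → a = b := by
    have h2 : ∀ x ∈ S ×ˢ S, ∃ m : ℕ, (∀ i < m, ι' x.1 i = ι' x.2 i) → x.1 = x.2 := by
      intro x hx
      rw [Finset.mem_product] at hx
      by_cases hab : x.1 = x.2
      · exact ⟨0, fun _ => hab⟩
      · have h3 : ι' x.1 ≠ ι' x.2 := fun h => hab (hι _ (hS _ hx.1) _ (hS _ hx.2) h)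
        obtain ⟨i, hi⟩ := Function.ne_iff.1 h3
        exact ⟨i + 1, fun h => absurd (h i (Nat.lt_succ_self i)) hi⟩
    choose! m hm using h2
    refine ⟨(S ×ˢ S).sup m, fun a ha b hb hab => ?_⟩
    have hx : (a, b) ∈ S ×ˢ S := Finset.mem_product.2 ⟨ha, hb⟩
    exact hm (a, b) hx fun i hi => hab i (hi.trans_le (Finset.le_sup hx))
  obtain ⟨m, hm⟩ := hm
  let φ : (Fin m → Bool) → V := fun u =>
    if h : ∃ a ∈ S, ∀ i : Fin m, ι' a i = u i then f h.choose else Classical.arbitrary V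
  obtain ⟨j, hj⟩ := hg0 ⟨m, φ⟩
  refine ⟨j, fun a ha => ?_⟩
  have h4 : (g0 j).2 (fun i => ι' a i) = φ (fun i => ι' a i) := by
    rw [hj]
  show (g0 j).2 (fun i => ι' a i) = f a
  rw [h4]
  have h5 : ∃ b ∈ S, ∀ i : Fin m, ι' b i = ι' a i := ⟨a, ha, fun _ => rfl⟩
  show (if h : ∃ b ∈ S, ∀ i : Fin m, ι' b i = ι' a i then f h.choose
    else Classical.arbitrary V) = f a
  rw [dif_pos h5]
  congr 1
  exact hm _ h5.choose_spec.1 a ha fun i hi => h5.choose_spec.2 ⟨i, hi⟩

/-- the restriction of a sequence of bits -/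
def ext (n : ℕ) (v : Fin n → Bool) : ℕ → Bool := fun i => if h : i < n then v ⟨i, h⟩ else false

theorem exists_IO (Z : ℕ → (ℕ → Bool) → Set Cnd) (hZ : IsZ Z) : ∃ x, IO Z x := by
  classical
  -- countable sets of conditions with the same meaning
  have hA : ∀ n s, ∃ A : Set Cnd, A.Countable ∧ (∀ r ∈ A, r ∈ Z n s) ∧ meets A = meets (Z n s) := by
    intro n s
    obtain ⟨N', h1, h2, h3⟩ := ctbl_mts (nice_of_ccc ccc) (Z n s)
    refine ⟨N', h1, fun r hr => ?_, h3⟩
    obtain ⟨t, ht, hrt⟩ := h2 r hr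
    exact hZ.down n s t ht r hrt
  choose A hA1 hA2 hA3 using hA
  let D : Set Co := ⋃ x : ℕ × E, ⋃ b : A x.1 x.2, ⋃ a : (b : Cnd).support,
    insert (a : Co) (Desc a)
  have hDc : Cl D := by
    intro ok k c s h hm e n j i
    obtain ⟨x, hx⟩ := Set.mem_iUnion.1 hm
    obtain ⟨b, hb⟩ := Set.mem_iUnion.1 hx
    obtain ⟨a, ha⟩ := Set.mem_iUnion.1 hb
    refine Set.mem_iUnion.2 ⟨x, Set.mem_iUnion.2 ⟨b, Set.mem_iUnion.2 ⟨a, ?_⟩⟩⟩
    rcases ha with ha | ha
    · rw [← ha]
      exact Or.inr ⟨e, n, j, i, Or.inl rfl⟩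
    · exact Or.inr (desc_cl _ _ _ _ _ _ ha e n j i)
  have hDs : ∀ n s, ∀ b ∈ A n s, ∀ a, a ∈ b.support → a ∈ D := by
    intro n s b hb a ha
    exact Set.mem_iUnion.2 ⟨(n, s), Set.mem_iUnion.2 ⟨⟨b, hb⟩, Set.mem_iUnion.2 ⟨⟨a, ha⟩,
      Or.inl rfl⟩⟩⟩
  have hDk : #D ≤ 𝔠 := by
    refine (mk_iUnion_le _).trans (mul_le_of_le aleph0_le_continuum ?_ (ciSup_le' fun x => ?_))
    · simp [Cardinal.mk_prod]
    refine (mk_iUnion_le _).trans (mul_le_of_le aleph0_le_continuum ?_ (ciSup_le' fun b => ?_))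
    · have h1 : #(A x.1 x.2) ≤ ℵ₀ := (Cardinal.le_aleph0_iff_set_countable).2 (hA1 x.1 x.2)
      exact h1.trans aleph0_le_continuum
    refine (mk_iUnion_le _).trans (mul_le_of_le aleph0_le_continuum ?_ (ciSup_le' fun a => ?_))
    · have h1 : #((b : Cnd).support) ≤ ℵ₀ := Cardinal.mk_le_aleph0
      exact h1.trans aleph0_le_continuum
    refine (mk_insert_le).trans ?_
    exact add_le_of_le aleph0_le_continuum (mk_desc _) (one_le_aleph0.trans aleph0_le_continuum)
  obtain ⟨g, hg⟩ := exists_pieces (V := Finset ℕ) D hDk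
  -- the value which cannot be avoided
  have key : ∀ j n : ℕ, ∀ m : ℕ, ∃ v : ℕ → Bool, ∀ p : Cnd, (∀ a ∈ p.support, (p a).st = g j a) →
      ∃ s, (∀ i, m ≤ i → i < n → s i = v i) ∧ ∃ a ∈ A n s, ∃ t, t ≤ a ∧ t ≤ p := by
    intro j n m
    by_contra hcon
    push Not at hcon
    choose p hp1 hp2 using hcon
    obtain ⟨r, hr⟩ := common_lb (Finset.univ.image fun v : Fin n → Bool => p (ext n v)) (g j) (by
      intro q hq a ha
      obtain ⟨v, _, rfl⟩ := Finset.mem_image.1 hq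
      exact hp1 _ a ha)
    obtain ⟨q, hq, s, hs⟩ := hZ.tot r n
    have h1 : q ∈ meets (A n s) := by
      rw [hA3]
      exact meets_of_mem hs
    obtain ⟨t, ht, a, ha, hta⟩ := h1 q le_rfl
    refine hp2 (ext n fun i => s i) s ?_ a ha t hta ?_
    · intro i _ hi
      unfold ext
      rw [dif_pos hi]
    · exact (ht.trans hq).trans (hr _ (Finset.mem_image.2 ⟨_, Finset.mem_univ _, rfl⟩))
  choose v hv using key
  obtain ⟨x, hx⟩ := exists_blocks fun k => v (Nat.unpair k).1 (bN (k + 1)) (bN k)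
  refine ⟨x, fun p m => ?_⟩
  obtain ⟨j, hj⟩ := hg (res D p).support (fun a => (p a).st) (fun a ha => res_supp ha)
  obtain ⟨s, hs1, a, ha, t, hta, htp⟩ := hv j (bN (Nat.pair j m + 1)) (bN (Nat.pair j m)) (res D p)
    (by
      intro a ha
      rw [hj a ha, res_in (res_supp ha)])
  refine ⟨am D t p, am_le hDc ?_, Nat.pair j m, Nat.right_le_pair j m, s, ?_, ?_⟩
  · intro b hb
    have h1 := htp b
    rw [res_in hb] at h1
    exact h1
  · refine hZ.down _ _ a (hA2 _ _ a ha) _ (le_agree hDc (fun b hb => am_in hb)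
      (fun b hb => hDs _ _ a ha b hb) hta)
  · intro i h1 h2
    rw [hx _ i h1 h2, hs1 i h1 h2, Nat.unpair_pair]

end Pool.Agent.Helper835.PX
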