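import Mathlib
import Pool.Agent.Helper835.PX.IO

/-!
# Codes of real numbers with given digits in base `4`
-/

set_option autoImplicit false

namespace Pool.Agent.Helper835.PX

open Pool.Agent.Helper161.Gam

/-- `⌊2 ^ v * x⌋` for the real number `x` with the digits `d` in base `4` -/
def code (d : ℕ → ℤ) (v : ℕ) : ℤ :=
  if v % 2 = 0 then V d (v / 2) else 2 * V d (v / 2) + d (v / 2) / 2

theorem dg_cases (t : ℕ → Bool) (i : ℕ) : dg t i = 0 ∨ dg t i = 1 := no_cover_dg t i

theorem V_congr {d d' : ℕ → ℤ} {n : ℕ} (h : ∀ i < n, d i = d' i) : V d n = V d' n := by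
  induction n with
  | zero => rfl
  | succ n ih =>
    rw [V, V, ih fun i hi => h i (hi.trans (Nat.lt_succ_self n)), h n (Nat.lt_succ_self n)]

theorem V_add (d d' : ℕ → ℤ) (n : ℕ) : V (fun i => d i + d' i) n = V d n + V d' n := by
  induction n with
  | zero => rfl
  | succ n ih =>
    rw [V, V, V, ih]
    ring

theorem code_even (d : ℕ → ℤ) (n : ℕ) : code d (2 * n) = V d n := by
  unfold code
  rw [if_pos (by omega)]
  congr 1
  omega

theorem code_odd (d : ℕ → ℤ) (n : ℕ) : code d (2 * n + 1) = 2 * V d n + d n / 2 := by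
  unfold code
  rw [if_neg (by omega)]
  have : (2 * n + 1) / 2 = n := by omega
  rw [this]

theorem code_congr {d d' : ℕ → ℤ} {v : ℕ} (h : ∀ i < v, d i = d' i) : code d v = code d' v := by
  unfold code
  by_cases hv : v % 2 = 0
  · rw [if_pos hv, if_pos hv]
    exact V_congr fun i hi => h i (by omega)
  · rw [if_neg hv, if_neg hv, h (v / 2) (by omega),
      V_congr (d := d) (d' := d') fun i hi => h i (by omega)]

theorem code_step {d : ℕ → ℤ} (hd : ∀ i, 0 ≤ d i ∧ d i ≤ 3) (v : ℕ) :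
    code d (v + 1) = 2 * code d v ∨ code d (v + 1) = 2 * code d v + 1 := by
  rcases Nat.even_or_odd' v with ⟨m, rfl | rfl⟩
  · rw [code_odd, code_even]
    have := hd m
    omega
  · have h2 : 2 * m + 1 + 1 = 2 * (m + 1) := by ring
    rw [h2, code_even, code_odd, V]
    have := hd m
    omega

theorem code_zero {d : ℕ → ℤ} (hd : ∀ i, 0 ≤ d i ∧ d i ≤ 2) (m : ℕ) :
    code d (2 * m + 1) = 2 * code d (2 * m) ∨ code d (2 * m + 1 + 1) = 2 * code d (2 * m + 1) := by
  have h2 : 2 * m + 1 + 1 = 2 * (m + 1) := by ring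
  rw [h2, code_even, code_even, code_odd, V]
  have := hd m
  omega

theorem code_lo {d : ℕ → ℤ} (hd : ∀ i, 0 ≤ d i ∧ d i ≤ 3) (v k : ℕ) :
    (code d v : ℚ) / 2 ^ v ≤ code d (v + k) / 2 ^ (v + k) ∧
      ((code d (v + k) : ℚ) + 1) / 2 ^ (v + k) ≤ ((code d v : ℚ) + 1) / 2 ^ v := by
  induction k with
  | zero => simp
  | succ k ih =>
    have h2 : (0 : ℚ) < 2 ^ (v + k) := by positivity
    have h3 : (2 : ℚ) ^ (v + (k + 1)) = 2 * 2 ^ (v + k) := by rw [← add_assoc, pow_succ]; ring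
    constructor
    · refine ih.1.trans ?_
      rw [h3, div_le_div_iff₀ h2 (by positivity)]
      rcases code_step hd (v + k) with h | h
      · rw [← add_assoc, h]
        push_cast
        nlinarith
      · rw [← add_assoc, h]
        push_cast
        nlinarith
    · refine le_trans ?_ ih.2
      rw [h3, div_le_div_iff₀ (by positivity) h2]
      rcases code_step hd (v + k) with h | h
      · rw [← add_assoc, h]
        push_cast
        nlinarith
      · rw [← add_assoc, h]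
        push_cast
        nlinarith

theorem pow_four (n : ℕ) : (2 : ℚ) ^ (2 * n) = 4 ^ n := by
  rw [pow_mul]
  norm_num

theorem code_le_V {d : ℕ → ℤ} (hd : ∀ i, 0 ≤ d i ∧ d i ≤ 3) {v n : ℕ} (h : v ≤ 2 * n) :
    (code d v : ℚ) / 2 ^ v ≤ V d n / 4 ^ n ∧
      ((V d n : ℚ) + 1) / 4 ^ n ≤ ((code d v : ℚ) + 1) / 2 ^ v := by
  obtain ⟨k, hk⟩ := Nat.exists_eq_add_of_le h
  have h1 := code_lo hd v k
  rw [← hk, code_even, pow_four] at h1
  exact h1

theorem V_mono {d : ℕ → ℤ} (hd : ∀ i, 0 ≤ d i ∧ d i ≤ 3) {m n : ℕ} (h : m ≤ n) :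
    (V d m : ℚ) / 4 ^ m ≤ V d n / 4 ^ n ∧
      ((V d n : ℚ) + 1) / 4 ^ n ≤ ((V d m : ℚ) + 1) / 4 ^ m := by
  have h1 := code_le_V hd (v := 2 * m) (n := n) (by omega)
  rw [code_even, pow_four] at h1
  exact h1

theorem V_bound {d : ℕ → ℤ} (hd : ∀ i, 0 ≤ d i ∧ d i ≤ 3) (n : ℕ) : 0 ≤ V d n ∧ V d n < 4 ^ n := by
  induction n with
  | zero => simp [V]
  | succ n ih =>
    have := hd n
    rw [V, pow_succ]
    constructor <;> linarith [ih.1, ih.2, this.1, this.2]

/-- append `l` digits `1` -/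
def ones (c : ℤ) : ℕ → ℤ
  | 0 => c
  | l + 1 => 4 * ones c l + 1

theorem V_ones {d : ℕ → ℤ} {m : ℕ} (l : ℕ) (h : ∀ i, m ≤ i → i < m + l → d i = 1) :
    V d (m + l) = ones (V d m) l := by
  induction l with
  | zero => rfl
  | succ l ih =>
    rw [ones, ← ih fun i h1 h2 => h i h1 (by omega), ← add_assoc, V,
      h (m + l) (by omega) (by omega)]

/-- the intervals which cover the set of the real numbers whose digits are `1` on a block `k` with
`K ≤ k` -/
noncomputable def Iv (K : ℕ) (i : ℕ) : ℚ × ℚ :=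
  if K ≤ (Nat.unpair i).1 ∧ (Nat.unpair i).2 < 4 ^ bN (Nat.unpair i).1 then
    (((ones (Nat.unpair i).2 (bN ((Nat.unpair i).1 + 1) - bN (Nat.unpair i).1) : ℚ) - 1) /
        4 ^ bN ((Nat.unpair i).1 + 1),
      ((ones (Nat.unpair i).2 (bN ((Nat.unpair i).1 + 1) - bN (Nat.unpair i).1) : ℚ) + 1) /
        4 ^ bN ((Nat.unpair i).1 + 1))
  else (0, 0)

theorem exists_Iv (s ε : ℝ) (hs : 0 < s) (hε : 0 < ε) :
    ∃ K, ∀ F : Finset ℕ, ∑ i ∈ F, wt s (Iv K i) ≤ ε := by
  classical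
  obtain ⟨K, hK⟩ := small_sum s ε hs hε
  refine ⟨K, fun F => ?_⟩
  have h1 : ∑ i ∈ F, wt s (Iv K i) = ∑ i ∈ F with
      (K ≤ (Nat.unpair i).1 ∧ (Nat.unpair i).2 < 4 ^ bN (Nat.unpair i).1),
      ((2 : ℝ) / 4 ^ bN ((Nat.unpair i).1 + 1)) ^ s := by
    rw [Finset.sum_filter]
    refine Finset.sum_congr rfl fun i _ => ?_
    by_cases h : K ≤ (Nat.unpair i).1 ∧ (Nat.unpair i).2 < 4 ^ bN (Nat.unpair i).1
    · rw [if_pos h, Iv, if_pos h, wt]
      congr 1
      rw [max_eq_left]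
      · push_cast
        ring
      · push_cast
        rw [← sub_div]
        apply div_nonneg
        · linarith
        · positivity
    · rw [if_neg h, Iv, if_neg h, wt]
      simp [Real.zero_rpow hs.ne']
  rw [h1]
  have h2 := hK ((F.filter fun i => K ≤ (Nat.unpair i).1 ∧
    (Nat.unpair i).2 < 4 ^ bN (Nat.unpair i).1).image Nat.unpair) (by
      intro x hx
      obtain ⟨i, hi, rfl⟩ := Finset.mem_image.1 hx
      exact (Finset.mem_filter.1 hi).2)
  have hinj : Function.Injective Nat.unpair := Nat.pairEquiv.symm.injective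
  rw [Finset.sum_image (fun a _ b _ h => hinj h)] at h2
  exact h2

end Pool.Agent.Helper835.PX
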