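import Mathlib
import Pool.Agent.Helper835.PX.Digits

/-!
# The set `Y`, and the theorem
-/

set_option autoImplicit false

namespace Pool.Agent.Helper835.PX

open Pool.Agent.Helper161.Gam

section Abs

variable {P : Type} [Preorder P]

/-- digits `s + 1 - x` -/
def yd (x s : E) (i : ℕ) : ℤ := dg s i + 1 - dg x i

theorem yd_bd (x s : E) (i : ℕ) : 0 ≤ yd x s i ∧ yd x s i ≤ 2 := by
  unfold yd
  rcases dg_cases s i with h | h <;> rcases dg_cases x i with h' | h' <;> rw [h, h'] <;> norm_num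

theorem yd_bd' (x s : E) (i : ℕ) : 0 ≤ yd x s i ∧ yd x s i ≤ 3 :=
  ⟨(yd_bd x s i).1, (yd_bd x s i).2.trans (by norm_num)⟩

theorem dg_bd (s : E) (i : ℕ) : 0 ≤ dg s i ∧ dg s i ≤ 2 := by
  rcases dg_cases s i with h | h <;> rw [h] <;> norm_num

theorem dg_bd' (s : E) (i : ℕ) : 0 ≤ dg s i ∧ dg s i ≤ 3 := by
  rcases dg_cases s i with h | h <;> rw [h] <;> norm_num

/-- the real number with digits `z + 1 - x`, where `z` is the sequence named by `Z` -/
def YN (x : E) (Z : ℕ → E → Set P) : RName P := fun v c => {p | ∃ s, p ∈ Z v s ∧ c = code (yd x s) v}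

theorem yd_congr {x s s' : E} {i : ℕ} (h : s i = s' i) : yd x s i = yd x s' i := by
  unfold yd dg
  rw [h]

theorem YN_uniq {x : E} {Z : ℕ → E → Set P} (hZ : IsZ Z) {v : ℕ} {c : ℤ} {p : P} {n : ℕ} {s : E}
    (hn : v ≤ n) (hs : p ∈ Z n s) (h : p ∈ meets (YN x Z v c)) : c = code (yd x s) v := by
  obtain ⟨r, hr, t, ⟨s', hs', hc⟩, hrt⟩ := h p le_rfl
  rw [hc]
  refine code_congr fun i hi => yd_congr ?_
  exact hZ.uniq r v n s' s (hZ.down _ _ _ hs' _ hrt) (hZ.down _ _ _ hs _ hr) i hi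
    (hi.trans_le hn)

theorem YN_mem {x : E} {Z : ℕ → E → Set P} (hZ : IsZ Z) {v : ℕ} {p : P} {n : ℕ} {s : E}
    (hn : v ≤ n) (hs : p ∈ Z n s) : p ∈ meets (YN x Z v (code (yd x s) v)) :=
  meets_of_mem ⟨s, hZ.congr p n v s s hn (fun _ _ => rfl) hs, rfl⟩

theorem YN_real {x : E} {Z : ℕ → E → Set P} (hZ : IsZ Z) (p : P) : p ∈ IsReal (YN x Z) := by
  refine mem_fand.2 ⟨mem_fand.2 ⟨?_, ?_⟩, mem_fand.2 ⟨?_, ?_⟩⟩
  · intro v
    refine mem_fex.2 fun q _ => ?_
    obtain ⟨r, hr, s, hs⟩ := hZ.tot q v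
    exact ⟨r, hr, _, YN_mem hZ le_rfl hs⟩
  · intro v c c'
    refine mem_fimp.2 fun q _ h => ?_
    obtain ⟨r, hr, s, hs⟩ := hZ.tot q v
    refine ⟨r, hr, mem_fground.2 ?_⟩
    rw [YN_uniq hZ le_rfl hs (down_meets _ _ h.1 _ hr),
      YN_uniq hZ le_rfl hs (down_meets _ _ h.2 _ hr)]
  · intro v c c'
    refine mem_fimp.2 fun q _ h => ?_
    obtain ⟨r, hr, s, hs⟩ := hZ.tot q (v + 1)
    refine ⟨r, hr, mem_fground.2 ?_⟩
    rw [YN_uniq hZ (Nat.le_succ v) hs (down_meets _ _ h.1 _ hr),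
      YN_uniq hZ le_rfl hs (down_meets _ _ h.2 _ hr)]
    exact code_step (yd_bd' x s) v
  · intro v
    refine mem_fex.2 fun q _ => ?_
    obtain ⟨r, hr, s, hs⟩ := hZ.tot q (2 * v + 1 + 1)
    have h0 := code_zero (yd_bd x s) v
    rcases h0 with h0 | h0
    · refine ⟨r, hr, 2 * v, mem_fex.2 fun q' hq' => ⟨q', le_rfl, code (yd x s) (2 * v),
        mem_fand.2 ⟨mem_fground.2 (by omega), mem_fand.2 ⟨?_, ?_⟩⟩⟩⟩
      · exact down_meets _ _ (YN_mem hZ (by omega) hs) _ hq'
      · rw [← h0]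
        exact down_meets _ _ (YN_mem hZ (by omega) hs) _ hq'
    · refine ⟨r, hr, 2 * v + 1, mem_fex.2 fun q' hq' => ⟨q', le_rfl, code (yd x s) (2 * v + 1),
        mem_fand.2 ⟨mem_fground.2 (by omega), mem_fand.2 ⟨?_, ?_⟩⟩⟩⟩
      · exact down_meets _ _ (YN_mem hZ (by omega) hs) _ hq'
      · rw [← h0]
        exact down_meets _ _ (YN_mem hZ (by omega) hs) _ hq'

theorem X_real (e : E) (p : P) : p ∈ IsReal (chk (code (dg e)) : RName P) := by
  refine A_real _ (fun v => code_step (dg_bd' e) v) (fun v => ?_) p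
  rcases code_zero (dg_bd e) v with h | h
  · exact ⟨2 * v, by omega, h⟩
  · exact ⟨2 * v + 1, by omega, h⟩

variable (P) in
/-- the index set of `Y` -/
abbrev EY : Type := {w : E × (ℕ → E → Set P) // IsZ w.2 ∧ IO w.2 w.1}

theorem Y_dim (p : P) : p ∈ DimZero (fun w : EY P => YN w.1.1 w.1.2) := by
  intro s hs ε hε
  obtain ⟨K, hK⟩ := exists_Iv (s : ℝ) (ε : ℝ) (by exact_mod_cast hs) (by exact_mod_cast hε)
  have hJ : ∀ (q : P) (i : ℕ) (I : ℚ × ℚ), q ∈ meets ({_q | I = Iv K i} : Set P) → I = Iv K i := by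
    intro q i I h
    obtain ⟨r, _, t, ht, _⟩ := h q le_rfl
    exact ht
  refine mem_fex.2 fun q _ => ⟨q, le_rfl, (fun i I => {_q | I = Iv K i}), ⟨⟨?_, ?_⟩, ?_⟩, ?_⟩
  · intro i
    exact mem_fex_of_mem (Iv K i) (down_meets _) (meets_of_mem rfl)
  · intro i I I'
    refine mem_fimp.2 fun r _ h => ⟨r, le_rfl, ?_⟩
    show I = I'
    rw [hJ r i I h.1, hJ r i I' h.2]
  · intro F b
    refine mem_fimp.2 fun r _ h => ⟨r, le_rfl, ?_⟩
    show ∑ i ∈ F, wt (s : ℝ) (b i) ≤ ((ε : ℚ) : ℝ)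
    rw [Finset.sum_congr rfl fun i hi => by rw [hJ r i (b i) (h i hi)]]
    exact hK F
  · intro w
    obtain ⟨⟨x, Z⟩, hZ, hio⟩ := w
    refine mem_fex.2 fun q1 _ => ?_
    obtain ⟨q2, hq2, k, hk, s', hs', hblk⟩ := hio q1 K
    simp only at hs' hblk hZ hio
    have hlt : bN k < bN (k + 1) := bN_strictMono (Nat.lt_succ_self k)
    obtain ⟨c, hc⟩ : ∃ c : ℕ, V (yd x s') (bN k) = c :=
      Int.eq_ofNat_of_zero_le (V_bound (yd_bd' x s') (bN k)).1
    have hc4 : c < 4 ^ bN k := by
      have h1 := (V_bound (yd_bd' x s') (bN k)).2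
      rw [hc] at h1
      exact_mod_cast h1
    have hIv : Iv K (Nat.pair k c) = (((V (yd x s') (bN (k + 1)) : ℚ) - 1) / 4 ^ bN (k + 1),
        ((V (yd x s') (bN (k + 1)) : ℚ) + 1) / 4 ^ bN (k + 1)) := by
      have h2 : V (yd x s') (bN (k + 1)) = ones c (bN (k + 1) - bN k) := by
        have h3 := V_ones (d := yd x s') (m := bN k) (bN (k + 1) - bN k) (by
          intro i h4 h5
          unfold yd dg
          rw [hblk i h4 (by omega)]
          ring)
        rw [hc] at h3
        have h4 : bN k + (bN (k + 1) - bN k) = bN (k + 1) := by omega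
        rw [h4] at h3
        exact h3
      rw [Iv, Nat.unpair_pair, if_pos ⟨hk, hc4⟩, h2]
    refine ⟨q2, hq2, Nat.pair k c, mem_fex_of_mem (Iv K (Nat.pair k c))
      (down_fand (down_meets _) (down_InI _ _)) ⟨meets_of_mem rfl, ?_⟩⟩
    refine mem_InI.2 fun q3 hq3 => ?_
    obtain ⟨r, hr, s'', hs''⟩ := hZ.tot q3 (2 * bN (k + 1))
    refine ⟨r, hr, 2 * bN (k + 1), code (yd x s'') (2 * bN (k + 1)), YN_mem hZ le_rfl hs'', ?_⟩
    have h5 : code (yd x s'') (2 * bN (k + 1)) = V (yd x s') (bN (k + 1)) := by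
      rw [code_even]
      refine V_congr fun i hi => yd_congr ?_
      exact hZ.uniq r _ _ s'' s' hs'' (hZ.down _ _ _ hs' _ (hr.trans hq3)) i (by omega) hi
    rw [h5, hIv, pow_four]
    refine ⟨?_, le_rfl⟩
    have h6 : (0 : ℚ) < 4 ^ bN (k + 1) := by positivity
    rw [div_lt_div_iff_of_pos_right h6]
    linarith

/-- rectangles -/
abbrev Rect : Type := (ℚ × ℚ) × (ℚ × ℚ)

/-- the sums `x + y` of the points `(x, y)` of the rectangles in `F` cover all numbers with digits
`1 + t i`, where `t` is a sequence of bits which agrees with `s` below `n` -/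
def Covers (F : Finset (ℕ × Rect)) (n : ℕ) (s : E) : Prop :=
  ∃ N, n ≤ N ∧ ∀ t : E, (∀ i < n, t i = s i) → ∃ x ∈ F,
    x.2.1.1 + x.2.2.1 < (V (fun j => 1 + dg t j) N : ℚ) / 4 ^ N ∧
      ((V (fun j => 1 + dg t j) N : ℚ) + 1) / 4 ^ N ≤ x.2.1.2 + x.2.2.2

theorem od_bd (t : E) (i : ℕ) : 0 ≤ 1 + dg t i ∧ 1 + dg t i ≤ 3 := by
  rcases dg_cases t i with h | h <;> rw [h] <;> norm_num

theorem covers_level {F : Finset (ℕ × Rect)} {n : ℕ} {s : E} {N M : ℕ} (hNM : N ≤ M)
    (h : ∀ t : E, (∀ i < n, t i = s i) → ∃ x ∈ F,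
      x.2.1.1 + x.2.2.1 < (V (fun j => 1 + dg t j) N : ℚ) / 4 ^ N ∧
        ((V (fun j => 1 + dg t j) N : ℚ) + 1) / 4 ^ N ≤ x.2.1.2 + x.2.2.2) :
    ∀ t : E, (∀ i < n, t i = s i) → ∃ x ∈ F,
      x.2.1.1 + x.2.2.1 < (V (fun j => 1 + dg t j) M : ℚ) / 4 ^ M ∧
        ((V (fun j => 1 + dg t j) M : ℚ) + 1) / 4 ^ M ≤ x.2.1.2 + x.2.2.2 := by
  intro t ht
  obtain ⟨x, hx, h1, h2⟩ := h t ht
  have h3 := V_mono (od_bd t) hNM
  exact ⟨x, hx, h1.trans_le h3.1, h3.2.trans h2⟩

theorem covers_congr {F : Finset (ℕ × Rect)} {n : ℕ} {s s' : E} (h : ∀ i < n, s i = s' i) :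
    Covers F n s ↔ Covers F n s' := by
  unfold Covers
  constructor
  · rintro ⟨N, hN, h1⟩
    exact ⟨N, hN, fun t ht => h1 t fun i hi => by rw [ht i hi, h i hi]⟩
  · rintro ⟨N, hN, h1⟩
    exact ⟨N, hN, fun t ht => h1 t fun i hi => by rw [ht i hi, h i hi]⟩

theorem covers_union [DecidableEq (ℕ × Rect)] {F F' : Finset (ℕ × Rect)} {n : ℕ} {s : E}
    (h : Covers F (n + 1) (Function.update s n false))
    (h' : Covers F' (n + 1) (Function.update s n true)) : Covers (F ∪ F') n s := by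
  obtain ⟨N, hN, h1⟩ := h
  obtain ⟨N', hN', h1'⟩ := h'
  refine ⟨max N N', le_trans (by omega) ((Nat.le_succ n).trans (hN.trans (le_max_left _ _))),
    fun t ht => ?_⟩
  have hup : ∀ b, t n = b → ∀ i < n + 1, t i = Function.update s n b i := by
    intro b hb i hi
    by_cases hin : i = n
    · subst hin
      rw [Function.update_self, hb]
    · rw [Function.update_of_ne hin]
      exact ht i (by omega)
  cases hb : t n with
  | false =>
    obtain ⟨x, hx, h2⟩ := covers_level (le_max_left N N') h1 t (hup false hb)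
    exact ⟨x, Finset.mem_union_left _ hx, h2⟩
  | true =>
    obtain ⟨x, hx, h2⟩ := covers_level (le_max_right N N') h1' t (hup true hb)
    exact ⟨x, Finset.mem_union_right _ hx, h2⟩

/-- no finite part of the cover named by `J` covers the sums with digits extending `s` -/
def Good (J : ℕ → Rect → Set P) (n : ℕ) (s : E) : Set P :=
  fall fun F : Finset (ℕ × Rect) =>
    fimp (fall fun x => fall fun _ : x ∈ F => meets (J x.1 x.2)) (fground (¬ Covers F n s))

theorem good_congr {J : ℕ → Rect → Set P} {n : ℕ} {s s' : E} (h : ∀ i < n, s i = s' i) :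
    Good J n s = Good J n s' := by
  unfold Good
  congr 1
  funext F
  congr 1
  congr 1
  exact propext (not_congr (covers_congr h))

theorem down_good (J : ℕ → Rect → Set P) (n : ℕ) (s : E) : Down (Good J n s) :=
  down_fall fun _ => down_fimp _ _

/-- the leftmost branch through the good nodes -/
def ZZ (J : ℕ → Rect → Set P) (n : ℕ) (s : E) : Set P :=
  {p | ∀ i < n, (s i = false → p ∈ Good J (i + 1) (Function.update s i false)) ∧
    (s i = true → p ∈ fnot (Good J (i + 1) (Function.update s i false)))}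

theorem upd_congr {s s' : E} {i : ℕ} {b : Bool} (h : ∀ j < i, s j = s' j) :
    ∀ j < i + 1, Function.update s i b j = Function.update s' i b j := by
  intro j hj
  by_cases hji : j = i
  · subst hji
    rw [Function.update_self, Function.update_self]
  · rw [Function.update_of_ne hji, Function.update_of_ne hji]
    exact h j (by omega)

theorem ZZ_isZ (J : ℕ → Rect → Set P) : IsZ (ZZ J) where
  down n s p hp q hq i hi := ⟨fun h => down_good _ _ _ _ ((hp i hi).1 h) _ hq,
    fun h => down_fnot _ _ ((hp i hi).2 h) _ hq⟩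
  tot p n := by
    induction n with
    | zero => exact ⟨p, le_rfl, fun _ => false, fun i hi => absurd hi (Nat.not_lt_zero i)⟩
    | succ n ih =>
      obtain ⟨q, hq, s, hs⟩ := ih
      by_cases h : ∃ r ≤ q, r ∈ Good J (n + 1) (Function.update s n false)
      · obtain ⟨r, hr, hr'⟩ := h
        refine ⟨r, hr.trans hq, Function.update s n false, fun i hi => ?_⟩
        by_cases hin : i = n
        · subst hin
          rw [Function.update_self]
          refine ⟨fun _ => ?_, fun h => absurd h (by simp)⟩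
          rw [Function.update_idem]
          exact hr'
        · rw [Function.update_of_ne hin]
          have h1 := hs i (by omega)
          rw [good_congr (upd_congr (s := Function.update s n false) (s' := s) (fun j hj => by
            rw [Function.update_of_ne (by omega)]))]
          exact ⟨fun h => down_good _ _ _ _ (h1.1 h) _ hr, fun h => down_fnot _ _ (h1.2 h) _ hr⟩
      · push Not at h
        refine ⟨q, hq, Function.update s n true, fun i hi => ?_⟩
        by_cases hin : i = n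
        · subst hin
          rw [Function.update_self]
          refine ⟨fun h => absurd h (by simp), fun _ => ?_⟩
          rw [Function.update_idem]
          exact h
        · rw [Function.update_of_ne hin]
          have h1 := hs i (by omega)
          rw [good_congr (upd_congr (s := Function.update s n true) (s' := s) (fun j hj => by
            rw [Function.update_of_ne (by omega)]))]
          exact h1
  uniq p n n' s s' h h' i := by
    induction i using Nat.strong_induction_on with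
    | _ i ih =>
      intro hi hi'
      have h1 := h i hi
      have h2 := h' i hi'
      rw [good_congr (upd_congr (s := s') (s' := s) (fun j hj =>
        (ih j hj (by omega) (by omega)).symm))] at h2
      cases hb : s i with
      | false =>
        cases hb' : s' i with
        | false => rfl
        | true => exact absurd (h1.1 hb) (h2.2 hb' p le_rfl)
      | true =>
        cases hb' : s' i with
        | false => exact absurd (h2.1 hb') (h1.2 hb p le_rfl)
        | true => rfl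
  congr p n n' s s' hn hs h i hi := by
    have h1 := h i (by omega)
    rw [← good_congr (upd_congr (s := s) (s' := s') (fun j hj => hs j (by omega))), ← hs i hi]
    exact h1

theorem good_step {J : ℕ → Rect → Set P} {n : ℕ} {s : E} {p : P} (h : p ∈ Good J n s)
    (hz : p ∈ ZZ J (n + 1) s) : p ∈ Good J (n + 1) s := by
  classical
  have h1 := hz n (Nat.lt_succ_self n)
  cases hb : s n with
  | false =>
    have h2 := h1.1 hb
    rw [← hb, Function.update_eq_self] at h2
    exact h2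
  | true =>
    have h2 := h1.2 hb
    intro F
    refine mem_fimp.2 fun q hq hF => ⟨q, le_rfl, ?_⟩
    intro hc
    have h3 := h2 q hq
    apply h3
    intro F'
    refine mem_fimp.2 fun q' hq' hF' => ⟨q', le_rfl, ?_⟩
    intro hc'
    have hs : Function.update s n true = s := by rw [← hb, Function.update_eq_self]
    have h4 : Covers (F' ∪ F) n s := covers_union hc' (by rw [hs]; exact hc)
    obtain ⟨r, _, hr⟩ := mem_fimp.1 (h (F' ∪ F)) q' (hq'.trans hq) (by
      intro x hx
      rcases Finset.mem_union.1 hx with hx | hx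
      · exact hF' x hx
      · exact down_meets _ _ (hF x hx) _ hq')
    exact hr h4

theorem good_all {J : ℕ → Rect → Set P} {s : E} {p : P} (h : p ∈ Good J 0 s) (n : ℕ)
    (hz : p ∈ ZZ J n s) : p ∈ Good J n s := by
  induction n with
  | zero => exact h
  | succ n ih => exact good_step (ih fun i hi => hz i (by omega)) hz

theorem good_zero {J : ℕ → Rect → Set P} {p : P} (h1 : p ∈ IsFun J)
    (h2 : p ∈ SumLE (wt2 (((1 / 2 : ℚ) : ℝ))) J (((1 / 3 : ℚ) : ℝ))) (s : E) : p ∈ Good J 0 s := by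
  classical
  intro F
  refine mem_fimp.2 fun q hq hF => ⟨q, le_rfl, ?_⟩
  rintro ⟨N, _, hN⟩
  let b : ℕ → Rect := fun i => if h : ∃ B, (i, B) ∈ F then h.choose else ((0, 0), (0, 0))
  have hb : ∀ x ∈ F, b x.1 = x.2 := by
    intro x hx
    have h : ∃ B, (x.1, B) ∈ F := ⟨x.2, hx⟩
    show (if h : ∃ B, (x.1, B) ∈ F then h.choose else ((0, 0), (0, 0))) = x.2
    rw [dif_pos h]
    exact IsFun.unique (down_IsFun _ _ h1 _ hq) (hF _ h.choose_spec) (hF x hx)
  have h3 : q ∈ SumLE (wt2 (((1 / 2 : ℚ) : ℝ))) J (((1 / 3 : ℚ) : ℝ)) := by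
    intro F' b'
    exact down_fimp _ _ _ (h2 F' b') _ hq
  obtain ⟨_, _, h4⟩ := mem_fimp.1 (h3 (F.image Prod.fst) b) q le_rfl (by
    intro i hi
    obtain ⟨x, hx, rfl⟩ := Finset.mem_image.1 hi
    rw [hb x hx]
    exact hF x hx)
  have h5 : ∑ i ∈ F.image Prod.fst, wt2 (((1 / 2 : ℚ) : ℝ)) (b i) ≤ (((1 / 3 : ℚ) : ℝ)) := h4
  refine no_cover (F.image Prod.fst) (fun i => (b i).1.1 + (b i).2.1)
    (fun i => (b i).1.2 + (b i).2.2) ?_ N ?_
  · refine le_trans (Finset.sum_le_sum fun i _ => ?_) (h5.trans (by norm_num))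
    unfold wt2
    have h6 : (((1 / 2 : ℚ) : ℝ)) = (1 : ℝ) / 2 := by norm_num
    rw [h6]
    apply Real.rpow_le_rpow
    · exact le_max_right _ _
    · apply max_le
      · push_cast
        have h7 := le_max_left ((((b i).1.2 : ℚ) : ℝ) - (((b i).1.1 : ℚ) : ℝ)) 0
        have h8 := le_max_left ((((b i).2.2 : ℚ) : ℝ) - (((b i).2.1 : ℚ) : ℝ)) 0
        linarith
      · exact add_nonneg (le_max_right _ _) (le_max_right _ _)
    · norm_num
  · intro t
    obtain ⟨x, hx, h7, h8⟩ := hN t fun i hi => absurd hi (Nat.not_lt_zero i)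
    refine ⟨x.1, Finset.mem_image_of_mem _ hx, ?_, ?_⟩
    · rw [hb x hx]
      exact h7
    · rw [hb x hx]
      exact h8

theorem not_dim (hIO : ∀ Z : ℕ → E → Set P, IsZ Z → ∃ x, IO Z x) (p : P) :
    p ∈ fnot (DimZeroProd (fun e : E => (chk (code (dg e)) : RName P))
      (fun w : EY P => YN w.1.1 w.1.2)) := by
  intro q _ hq
  have h0 := hq (1 / 2) (by norm_num) (1 / 3) (by norm_num)
  obtain ⟨r, hr, J, ⟨hJ1, hJ2⟩, hJ3⟩ := mem_fex.1 h0 q le_rfl
  obtain ⟨x, hx⟩ := hIO (ZZ J) (ZZ_isZ J)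
  have h1 := hJ3 x ⟨(x, ZZ J), ZZ_isZ J, hx⟩
  obtain ⟨r1, hr1, i, hi⟩ := mem_fex.1 h1 r le_rfl
  obtain ⟨r2, hr2, B, hB1, hB2, hB3⟩ := mem_fex.1 hi r1 le_rfl
  simp only at hB2 hB3
  obtain ⟨r3, hr3, v, c, hv, hI1, hI2⟩ := mem_InI.1 hB2 r2 le_rfl
  obtain ⟨r4, hr4, v', c', hv', hI1', hI2'⟩ := mem_InI.1 hB3 r3 hr3
  have hc : code (dg x) v = c := meets_chk_9647.1 hv
  obtain ⟨r5, hr5, s, hs⟩ := (ZZ_isZ J).tot r4 (v + v')
  have hc' : c' = code (yd x s) v' :=
    YN_uniq (ZZ_isZ J) (by omega) hs (down_meets _ _ hv' _ hr5)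
  have hle : r5 ≤ r := hr5.trans (hr4.trans (hr3.trans (hr2.trans hr1)))
  have hgood : r5 ∈ Good J (v + v') s := good_all (down_good _ _ _ _ (good_zero hJ1 hJ2 s) _ hle) _ hs
  obtain ⟨_, _, h2⟩ := mem_fimp.1 (hgood {(i, B)}) r5 le_rfl (by
    intro y hy
    rw [Finset.mem_singleton] at hy
    subst hy
    exact down_meets _ _ hB1 _ (hr5.trans (hr4.trans hr3)))
  apply h2
  refine ⟨v + v', le_rfl, fun t ht => ⟨(i, B), Finset.mem_singleton_self _, ?_⟩⟩
  have h3 : V (fun j => 1 + dg t j) (v + v') = V (dg x) (v + v') + V (yd x s) (v + v') := by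
    rw [← V_add]
    refine V_congr fun j hj => ?_
    unfold yd dg
    rw [ht j hj]
    ring
  have h4 := code_le_V (dg_bd' x) (v := v) (n := v + v') (by omega)
  have h5 := code_le_V (yd_bd' x s) (v := v') (n := v + v') (by omega)
  rw [hc] at h4
  rw [← hc'] at h5
  rw [h3]
  push_cast
  constructor
  · rw [add_div]
    linarith [h4.1, h5.1]
  · have h6 : ((V (dg x) (v + v') : ℚ) + V (yd x s) (v + v') + 1) / 4 ^ (v + v') ≤
        ((V (dg x) (v + v') : ℚ) + 1) / 4 ^ (v + v') + ((V (yd x s) (v + v') : ℚ) + 1) / 4 ^ (v + v') := by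
      rw [← add_div]
      apply div_le_div_of_nonneg_right _ (by positivity)
      linarith
    linarith [h4.2, h5.2]

end Abs

theorem forced (p : Cnd) : p ∈ NegQ1 Cnd := by
  refine mem_fex_of_mem E (down_fex _) ?_
  refine mem_fex_of_mem (fun e : E => (chk (code (dg e)) : RName Cnd)) (down_fex _) ?_
  refine mem_fex_of_mem (EY Cnd) (down_fex _) ?_
  refine mem_fex_of_mem (fun w : EY Cnd => YN w.1.1 w.1.2) ?_ ?_
  · refine down_fand (down_fand (down_fall fun e => (reglr_IsReal _).1)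
      (down_fall fun e => (reglr_IsReal _).1)) (down_fand ?_ (down_fand ?_ (down_fnot _)))
    · exact down_fall fun _ => down_fimp _ _
    · exact down_fall fun _ => down_fall fun _ => down_fall fun _ => down_fall fun _ => down_fex _
  · exact ⟨⟨fun e => X_real e p, fun w => YN_real w.2.1 p⟩, below_p p, Y_dim p,
      not_dim exists_IO p⟩

theorem main : ∃ (P : Type) (_ : Preorder P), Nonempty P ∧ ∀ p : P, p ∈ NegQ1 P :=
  ⟨Cnd, inferInstance, ⟨0⟩, forced⟩

end Pool.Agent.Helper835.PX
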